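import Pool.Agent.T9h40.GC.Spec2
import Pool.Agent.T9h22.GP.B1

/-!
# Plane curves are examples
-/

open Polynomial Filter Topology Bornology

namespace Pool.Agent.T9h40.GC

open Pool.Agent.T9h40.GP (HypP)
open Pool.Agent.T9h22.GP (lim_poly lim_A ne0_ev sp_eval_eval sp_eval)

theorem near_zero {n e : ℕ} {P : Polynomial ℂ[X]} {A : Fin n → ℂ[X]} (h : HypP n e P A) {R : ℝ}
    {y : Fin n → ℂ → ℂ} (hfac : ∀ t, R < ‖t‖ → ∀ s, evalEval t s P = ∏ j, (s - y j t))
    (hlim : ∀ l, Tendsto (fun t => y l t / t ^ e) (cobounded ℂ) (𝓝 (A l).leadingCoeff))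
    (l : Fin n) : Tendsto (fun t => (A l).eval t - y l t) (cobounded ℂ) (𝓝 0) := by
  classical
  have h1 : Tendsto (fun t : ℂ => (P.eval (A l)).eval t / t ^ (e * (n - 1))) (cobounded ℂ)
      (𝓝 0) := by
    have := lim_poly (P.eval (A l)) (e * (n - 1)) (h.low l).le
    rwa [coeff_eq_zero_of_natDegree_lt (h.low l)] at this
  have h2 : Tendsto (fun t : ℂ => ∏ i ∈ Finset.univ.erase l, (((A l).eval t - y i t) / t ^ e))
      (cobounded ℂ) (𝓝 (∏ i ∈ Finset.univ.erase l, ((A l).leadingCoeff - (A i).leadingCoeff))) := by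
    apply tendsto_finsetProd
    intro i _
    have h3 := (lim_A h l).sub (hlim i)
    refine h3.congr fun t => ?_
    rw [← sub_div]
  have h4 : ∏ i ∈ Finset.univ.erase l, ((A l).leadingCoeff - (A i).leadingCoeff) ≠ 0 := by
    rw [Finset.prod_ne_zero_iff]
    intro i hi h5
    exact (Finset.ne_of_mem_erase hi) (h.inj (sub_eq_zero.1 h5)).symm
  have h6 := h1.div h2 h4
  rw [zero_div] at h6
  refine h6.congr' ?_
  have h7 : ∀ᶠ t : ℂ in cobounded ℂ,
      ∏ i ∈ Finset.univ.erase l, (((A l).eval t - y i t) / t ^ e) ≠ 0 :=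
    h2.eventually_ne h4
  filter_upwards [h7, ne0_ev, eventually_cobounded_le_norm (E := ℂ) (R + 1)] with t ht ht0 htR
  have h8 := hfac t (by linarith) ((A l).eval t)
  rw [sp_eval_eval, ← Finset.mul_prod_erase _ _ (Finset.mem_univ l)] at h8
  have h9 : ∏ i ∈ Finset.univ.erase l, (((A l).eval t - y i t) / t ^ e) =
      (∏ i ∈ Finset.univ.erase l, ((A l).eval t - y i t)) / t ^ (e * (n - 1)) := by
    rw [Finset.prod_div_distrib, Finset.prod_const, Finset.card_erase_of_mem (Finset.mem_univ l),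
      Finset.card_univ, Fintype.card_fin, ← pow_mul]
  rw [h9] at ht
  rw [Pi.div_apply, h9]
  have ht' : t ^ (e * (n - 1)) ≠ 0 := pow_ne_zero _ ht0
  have ht2 : ∏ i ∈ Finset.univ.erase l, ((A l).eval t - y i t) ≠ 0 := by
    intro h10
    rw [h10, zero_div] at ht
    exact ht rfl
  rw [h8]
  field_simp

theorem plane : Plane := by
  intro n e P A h
  obtain ⟨R, y, hR, hfac, hlim⟩ := Pool.Agent.T9h22.GP.b1 n e P A h
  refine
    { hyp := fun _ => h
      on := ?_
      inf := ?_ }
  · intro p hp i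
    have : i = 0 := Fin.fin_one_eq_zero i
    subst this
    exact hp
  · have h1 : ∀ᶠ t : ℂ in cobounded ℂ, ∀ l, ‖y l t - (A l).eval t‖ < 1 := by
      rw [eventually_all]
      intro l
      have h2 := (near_zero h hfac hlim l).norm
      rw [norm_zero] at h2
      filter_upwards [h2.eventually (gt_mem_nhds one_pos)] with t ht
      rw [norm_sub_rev]
      exact ht
    rw [← comap_norm_atTop, eventually_comap] at h1
    obtain ⟨R0, hR0⟩ := eventually_atTop.1 h1
    refine ⟨max R R0, ?_, ?_⟩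
    · intro p hp hpR
      have hp0 : evalEval p.1 (p.2 0) P = 0 := hp
      rw [hfac p.1 (lt_of_le_of_lt (le_max_left _ _) hpR)] at hp0
      obtain ⟨j, _, hj⟩ := Finset.prod_eq_zero_iff.1 hp0
      refine ⟨j, fun i => ?_⟩
      have : i = 0 := Fin.fin_one_eq_zero i
      subst this
      rw [sub_eq_zero.1 hj]
      exact hR0 ‖p.1‖ (le_trans (le_max_right _ _) hpR.le) p.1 rfl j
    · intro t ht l
      refine ⟨fun _ => y l t, ?_, fun i => ?_⟩
      · show evalEval t (y l t) P = 0
        rw [hfac t (lt_of_le_of_lt (le_max_left _ _) ht)]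
        exact Finset.prod_eq_zero (Finset.mem_univ l) (sub_self _)
      · exact hR0 ‖t‖ (le_trans (le_max_right _ _) ht.le) t rfl l

end Pool.Agent.T9h40.GC
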