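import Pool.Agent.T9h40.GC.Defs

/-!
# Examples: plane curves, superelliptic curves
-/

open Polynomial Filter Topology Bornology

namespace Pool.Agent.T9h40.GC

open Pool.Agent.T9h40.GP (HypP)

/-- (G1) A plane curve `P(x,y) = 0` satisfying `HypP` is an example with `r = 0`. -/
def Plane : Prop :=
  ∀ (n e : ℕ) (P : Polynomial ℂ[X]) (A : Fin n → ℂ[X]), HypP n e P A →
    HypC n 0 (fun _ => e) (fun _ => P) (fun _ => A)
      {p : Pt 0 | evalEval p.1 (p.2 0) P = 0}

/-- (G2) The superelliptic curve `y^n = D(x)`, `deg D = n e`, `D` not an `n`-th power. -/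
def SuperEll : Prop :=
  ∀ (n e : ℕ), 2 ≤ n → 1 ≤ e → ∀ D : ℂ[X], D.Monic → D.natDegree = n * e →
    (∀ B : ℂ[X], B ^ n ≠ D) → ∃ A : Fin n → ℂ[X], HypP n e (X ^ n - C D) A

end Pool.Agent.T9h40.GC
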