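import Pool.Agent.T9h40.GC.Asm4
import Pool.Agent.T9h22.GP.B1
import Pool.Agent.T9h22.GP.B3
import Pool.Agent.T9h22.GP.B4
import Pool.Agent.T9h22.GP.B5
import Pool.Agent.T9h22.GP.K2
import Pool.Agent.T9h67.GP.M
import Pool.Agent.T9h67.GP.Ext
import Pool.Agent.T9h67.GP.BrEx
import Pool.Agent.T9h67.GC.Fib
import Pool.Agent.T9h89.GP.A
import Pool.Agent.T9h89.GP.K2
import Pool.Agent.T9h18.GP.B2
import Pool.Agent.T9h18.GP.K3
import Pool.Agent.T9h80.GP.A4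
import Pool.Agent.T9h80.GP.A5
import Pool.Agent.T9h80.GP.A6
import Pool.Agent.T9h80.GP.FinKer

/-!
# The theorem for arbitrary curves
-/

namespace Pool.Agent.T9h40.GC

theorem brEx : GP.BrEx :=
  Pool.Agent.T9h67.GP.brEx Pool.Agent.T9h22.GP.b1 Pool.Agent.T9h18.GP.b2 Pool.Agent.T9h22.GP.b3
    Pool.Agent.T9h22.GP.b4 Pool.Agent.T9h22.GP.b5

theorem final : Final :=
  final_of Pool.Agent.T9h89.GP.rgSub Pool.Agent.T9h89.GP.logInt Pool.Agent.T9h89.GP.wwSub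
    Pool.Agent.T9h80.GP.qqDiff Pool.Agent.T9h80.GP.moment Pool.Agent.T9h80.GP.momS
    Pool.Agent.T9h89.GP.parts Pool.Agent.T9h22.GP.keyLoc Pool.Agent.T9h18.GP.keyGlob
    Pool.Agent.T9h22.GP.b5 Pool.Agent.T9h80.GP.finKer Pool.Agent.T9h67.GP.ext brEx
    Pool.Agent.T9h67.GP.matInv Pool.Agent.T9h67.GC.fib

end Pool.Agent.T9h40.GC
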