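import Pool.Agent.T9h40.GP.Spec

/-!
# Regulators on small open subsets of curves: definitions (arbitrary curves)

Affine curve `V ⊆ ℂ × ℂ^(r+1)` with coordinates `x, w_0, ..., w_r`; `n` points at infinity, at the
`l`-th of them `w_i = A_{i,l}(x) + o(1)` with polynomials `A_{i,l}`.
-/

open Polynomial Filter Topology Bornology

namespace Pool.Agent.T9h40.GC

open Pool.Agent.T9h40.GP (ww rg qq HypP rts Br Asy)

/-- The ambient space. -/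
abbrev Pt (r : ℕ) := ℂ × (Fin (r + 1) → ℂ)

/-- A closed `C¹` path in `ℂ × ℂ^(r+1)` (parametrised by `[0,1]`). -/
structure Pth (r : ℕ) where
  x : ℝ → ℂ
  w : Fin (r + 1) → ℝ → ℂ
  hx : ContDiff ℝ 1 x
  hw : ∀ i, ContDiff ℝ 1 (w i)
  cx : x 0 = x 1
  cw : ∀ i, w i 0 = w i 1

/-- The point at time `θ`. -/
def Pth.pt {r : ℕ} (γ : Pth r) (θ : ℝ) : Pt r := (γ.x θ, fun i => γ.w i θ)

/-- The hypotheses on the affine curve `V`: each coordinate `w_i` satisfies on `V` a monic equation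
`P_i(x, w_i) = 0` of degree `n` with `n` distinct branches `A_{i,l}(x) + o(1)` at infinity (`HypP`),
and over large `x` the points of `V` are `n` points, indexed by `l`, at which all `w_i` are near
`A_{i,l}(x)`. -/
structure HypC (n r : ℕ) (e : Fin (r + 1) → ℕ) (P : Fin (r + 1) → Polynomial ℂ[X])
    (A : Fin (r + 1) → Fin n → ℂ[X]) (V : Set (Pt r)) : Prop where
  hyp : ∀ i, HypP n (e i) (P i) (A i)
  on : ∀ p ∈ V, ∀ i, evalEval p.1 (p.2 i) (P i) = 0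
  inf : ∃ R : ℝ, (∀ p ∈ V, R < ‖p.1‖ → ∃ l, ∀ i, ‖p.2 i - (A i l).eval p.1‖ < 1) ∧
    ∀ t, R < ‖t‖ → ∀ l, ∃ w, (t, w) ∈ V ∧ ∀ i, ‖w i - (A i l).eval t‖ < 1

/-- The functions whose symbols are used: the constant `2`, `w_0 - A_{0,l}(x)`, `x - t`,
`w_i - s`. -/
inductive Fn (n r : ℕ) where
  | two : Fn n r
  | U (l : Fin n) : Fn n r
  | X (t : ℂ) : Fn n r
  | Y (i : Fin (r + 1)) (s : ℂ) : Fn n r

/-- The value of such a function at a point. -/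
noncomputable def Fn.val {n r : ℕ} (A : Fin (r + 1) → Fin n → ℂ[X]) : Fn n r → Pt r → ℂ
  | .two, _ => 2
  | .U l, p => p.2 0 - (A 0 l).eval p.1
  | .X t, p => p.1 - t
  | .Y i s, p => p.2 i - s

/-- Units on the open curve: `x - t` only for `t ∈ Z`, `w_i - s` only for `(i, s) ∈ S`. -/
def Fn.Adm {n r : ℕ} (Z : Finset ℂ) (S : Finset (Fin (r + 1) × ℂ)) : Fn n r → Prop
  | .two => True
  | .U _ => True
  | .X t => t ∈ Z
  | .Y i s => (i, s) ∈ S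

/-- The regulator of the symbol `{f, g}` along `γ`: `∫ log|f| d arg g - log|g| d arg f`. -/
noncomputable def rgv {n r : ℕ} (A : Fin (r + 1) → Fin n → ℂ[X]) (f g : Fn n r) (γ : Pth r) : ℝ :=
  rg (fun θ => f.val A (γ.pt θ)) (fun θ => g.val A (γ.pt θ))

open Classical in
/-- `log` of the absolute value of the tame symbol of `{f, g}` at a point `p`, for functions with at
most simple zeros at `p` which do not both vanish there. -/
noncomputable def tm {n r : ℕ} (A : Fin (r + 1) → Fin n → ℂ[X]) (f g : Fn n r) (p : Pt r) : ℝ :=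
  (if g.val A p = 0 then Real.log ‖f.val A p‖ else 0)
    - (if f.val A p = 0 then Real.log ‖g.val A p‖ else 0)

/-- The points of the curve with `x ∈ Z` or `w_i = s`, `(i, s) ∈ S`. -/
def NN {r : ℕ} (V : Set (Pt r)) (Z : Finset ℂ) (S : Finset (Fin (r + 1) × ℂ)) : Set (Pt r) :=
  {p | p ∈ V ∧ (p.1 ∈ Z ∨ ∃ i, (i, p.2 i) ∈ S)}

/-- The closed path `γ` lies on the curve, avoids the zeros of all `w_0 - A_{0,l}(x)` and the fibres
over `Z₁`. -/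
def OnU {n r : ℕ} (V : Set (Pt r)) (A : Fin (r + 1) → Fin n → ℂ[X]) (Z₁ : Finset ℂ)
    (γ : Pth r) : Prop :=
  ∀ θ, γ.pt θ ∈ V ∧ (∀ l, γ.w 0 θ ≠ (A 0 l).eval (γ.x θ)) ∧ γ.x θ ∉ Z₁

/-- The paths `γ_k` are `ℝ`-linearly independent in homology: no nonzero real combination has zero
periods on all forms `x^i w_b^j dx`, `x^i d log (w_0 - A_{0,l}(x))`, `w_b^j dx/(x-t)`
(`t ∈ Z₁`). -/
def Indep {n r m : ℕ} (A : Fin (r + 1) → Fin n → ℂ[X]) (Z₁ : Finset ℂ) (γ : Fin m → Pth r) :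
    Prop :=
  ∀ a : Fin m → ℝ,
    (∀ (b : Fin (r + 1)) (i j : ℕ), ∑ k, (a k : ℂ) *
      ∫ θ in (0:ℝ)..1, (γ k).x θ ^ i * (γ k).w b θ ^ j * deriv (γ k).x θ = 0) →
    (∀ (l : Fin n) (i : ℕ), ∑ k, (a k : ℂ) *
      ∫ θ in (0:ℝ)..1, (γ k).x θ ^ i *
        (deriv (fun θ => (γ k).w 0 θ - (A 0 l).eval ((γ k).x θ)) θ /
          ((γ k).w 0 θ - (A 0 l).eval ((γ k).x θ))) = 0) →
    (∀ t ∈ Z₁, ∀ (b : Fin (r + 1)) (j : ℕ), ∑ k, (a k : ℂ) *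
      ∫ θ in (0:ℝ)..1, (γ k).w b θ ^ j * (deriv (γ k).x θ / ((γ k).x θ - t)) = 0) →
    a = 0

/-- The target theorem. -/
def Final : Prop :=
  ∀ (n r : ℕ) (e : Fin (r + 1) → ℕ) (P : Fin (r + 1) → Polynomial ℂ[X])
    (A : Fin (r + 1) → Fin n → ℂ[X]) (V : Set (Pt r)), HypC n r e P A V →
  ∀ (K : Set ℂ), Dense K → ∀ (Z₁ : Finset ℂ) (m : ℕ) (γ : Fin m → Pth r),
    (∀ k, OnU V A Z₁ (γ k)) → Indep A Z₁ γ → ∀ R₀ : ℝ,
    ∃ (Z : Finset ℂ) (S : Finset (Fin (r + 1) × ℂ)), (∀ t ∈ Z, t ∈ K) ∧ (∀ q ∈ S, q.2 ∈ K) ∧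
      -- the removed points are far away, smooth, unramified, outside the zeros of the `U l`
      (∀ p ∈ NN V Z S, R₀ < ‖p.1‖ ∧ (∀ i, evalEval p.1 (p.2 i) (derivative (P i)) ≠ 0) ∧
        ∀ l, p.2 0 ≠ (A 0 l).eval p.1) ∧
      (∀ q ∈ S, ∀ x, evalEval x q.2 (P q.1) = 0 →
        (derivative ((P q.1).eval (C q.2))).eval x ≠ 0) ∧
      (∀ t ∈ Z, ∀ q ∈ S, evalEval t q.2 (P q.1) ≠ 0) ∧
      (NN V Z S).Finite ∧
      Submodule.span ℝ {v : (Fin m → ℝ) × (NN V Z S → ℝ) | ∃ f g : Fn n r,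
        f.Adm (Z ∪ Z₁) S ∧ g.Adm (Z ∪ Z₁) S ∧
        (∀ p ∈ NN V Z S, ¬ (f.val A p = 0 ∧ g.val A p = 0)) ∧
        v = (fun k => rgv A f g (γ k), fun p => tm A f g p.1)} = ⊤

/-- Fibres over large `x`. -/
def Fib : Prop :=
  ∀ (n r : ℕ) (e : Fin (r + 1) → ℕ) (P : Fin (r + 1) → Polynomial ℂ[X])
    (A : Fin (r + 1) → Fin n → ℂ[X]) (V : Set (Pt r)), HypC n r e P A V →
    ∀ (R : ℝ) (y : Fin (r + 1) → Fin n → ℂ → ℂ), 0 < R →
      (∀ i t, R < ‖t‖ → ∀ s, evalEval t s (P i) = ∏ j, (s - y i j t)) →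
      (∀ i, Asy n (e i) (A i) R (y i)) →
      ∃ R₁, R ≤ R₁ ∧ (∀ p ∈ V, R₁ < ‖p.1‖ → ∃ j, ∀ i, p.2 i = y i j p.1) ∧
        ∀ t, R₁ < ‖t‖ → ∀ j, ((t, fun i => y i j t) : Pt r) ∈ V

end Pool.Agent.T9h40.GC
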