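import Pool.Agent.T9h40.GP.Asm1
import Pool.Agent.T9h40.GC.Defs

/-!
# Assembly for arbitrary curves, part 1
-/

open Polynomial Filter Topology Bornology

namespace Pool.Agent.T9h40.GC

open Pool.Agent.T9h40.GP (ww rg qq HypP rts Br Asy MM uu bb gg la E0 bb_add bb_smul gg_add gg_smul
  la_add la_smul RgSub LogInt WwSub QqDiff Moment MomS Parts KeyLoc KeyGlob B5 FinKer Ext BrEx
  MatInv contDiff_uu uu_closed rg_symm rg_const_right)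

/-- The projection to the plane `(x, w_b)`. -/
def Pth.pr {r : ℕ} (γ : Pth r) (b : Fin (r + 1)) : GP.Pth where
  x := γ.x
  y := γ.w b
  hx := γ.hx
  hy := γ.hw b
  cx := γ.cx
  cy := γ.cw b

section
variable {n r m : ℕ} (e : Fin (r + 1) → ℕ) (P : Fin (r + 1) → Polynomial ℂ[X])
  (A : Fin (r + 1) → Fin n → ℂ[X]) (γ : Fin m → Pth r) (y : Fin (r + 1) → Fin n → ℂ → ℂ)

/-- all paths projected -/
def prs (b : Fin (r + 1)) : Fin m → GP.Pth := fun k => (γ k).pr b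

/-- The coefficients on the fibre over `t`. -/
noncomputable def lam (a : Fin m → ℝ) (j : Fin n) (t : ℂ) : ℝ :=
  la (e 0) (A 0) (prs γ 0) (y 0) a j t

theorem lam_add (a b : Fin m → ℝ) (j : Fin n) (t : ℂ) :
    lam e A γ y (a + b) j t = lam e A γ y a j t + lam e A γ y b j t :=
  la_add _ _ _ _ a b j t

theorem lam_smul (c : ℝ) (a : Fin m → ℝ) (j : Fin n) (t : ℂ) :
    lam e A γ y (c • a) j t = c * lam e A γ y a j t :=
  la_smul _ _ _ _ c a j t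

theorem lam_zero (j : Fin n) (t : ℂ) : lam e A γ y (0 : Fin m → ℝ) j t = 0 := by
  have := lam_smul e A γ y 0 (0 : Fin m → ℝ) j t
  simpa using this

/-- The identity (C4) for the coordinate `w_b`. -/
def Eqn (R : ℝ) (b : Fin (r + 1)) (a : Fin m → ℝ) (s : ℂ) (μ : ℂ → ℝ) : Prop :=
  ∀ t, R < ‖t‖ → evalEval t s (P b) ≠ 0 →
    - gg (prs γ b) a s t + ∑ j, lam e A γ y a j t * Real.log ‖y b j t - s‖ =
      ∑ q ∈ rts (P b) s, μ q * Real.log ‖q - t‖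

/-- The identity (C4'). -/
def Eqn1 (Z₁ : Finset ℂ) (b : Fin (r + 1)) (a : Fin m → ℝ) (s : ℂ) (μ : ℂ → ℝ) : Prop :=
  ∀ t ∈ Z₁, ∑ k, a k * rg (fun θ => (γ k).w b θ - s) (fun θ => (γ k).x θ - t) =
      ∑ q ∈ rts (P b) s, μ q * Real.log ‖q - t‖

theorem Eqn_add {R : ℝ} {b : Fin (r + 1)} {a a' : Fin m → ℝ} {s : ℂ} {μ ν : ℂ → ℝ}
    (h1 : Eqn e P A γ y R b a s μ) (h2 : Eqn e P A γ y R b a' s ν) :
    Eqn e P A γ y R b (a + a') s (μ + ν) := by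
  intro t ht h
  have e1 := h1 t ht h
  have e2 := h2 t ht h
  simp only [gg_add, lam_add, Pi.add_apply, add_mul, Finset.sum_add_distrib]
  linarith

theorem Eqn_smul {R : ℝ} {b : Fin (r + 1)} {a : Fin m → ℝ} {s : ℂ} {μ : ℂ → ℝ} (c : ℝ)
    (h1 : Eqn e P A γ y R b a s μ) : Eqn e P A γ y R b (c • a) s (c • μ) := by
  intro t ht h
  have e1 := h1 t ht h
  simp only [gg_smul, lam_smul, Pi.smul_apply, smul_eq_mul, mul_assoc, ← Finset.mul_sum]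
  rw [← e1]
  ring

theorem Eqn1_add {Z₁ : Finset ℂ} {b : Fin (r + 1)} {a a' : Fin m → ℝ} {s : ℂ} {μ ν : ℂ → ℝ}
    (h1 : Eqn1 P γ Z₁ b a s μ) (h2 : Eqn1 P γ Z₁ b a' s ν) :
    Eqn1 P γ Z₁ b (a + a') s (μ + ν) := by
  intro t ht
  have e1 := h1 t ht
  have e2 := h2 t ht
  simp only [Pi.add_apply, add_mul, Finset.sum_add_distrib]
  linarith

theorem Eqn1_smul {Z₁ : Finset ℂ} {b : Fin (r + 1)} {a : Fin m → ℝ} {s : ℂ} {μ : ℂ → ℝ} (c : ℝ)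
    (h1 : Eqn1 P γ Z₁ b a s μ) : Eqn1 P γ Z₁ b (c • a) s (c • μ) := by
  intro t ht
  have e1 := h1 t ht
  simp only [Pi.smul_apply, smul_eq_mul, mul_assoc, ← Finset.mul_sum]
  rw [← e1]

theorem E0_add {Z₁ : Finset ℂ} {a a' : Fin m → ℝ} (h1 : E0 (A 0) (prs γ 0) Z₁ a)
    (h2 : E0 (A 0) (prs γ 0) Z₁ a') : E0 (A 0) (prs γ 0) Z₁ (a + a') := by
  obtain ⟨ha1, ha2⟩ := h1
  obtain ⟨hb1, hb2⟩ := h2
  constructor
  · intro l
    simp only [Pi.add_apply, add_mul, Finset.sum_add_distrib, ha1 l, hb1 l, add_zero]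
  · intro t ht
    simp only [Pi.add_apply, add_mul, Finset.sum_add_distrib, ha2 t ht, hb2 t ht, add_zero]

theorem E0_smul {Z₁ : Finset ℂ} {a : Fin m → ℝ} (c : ℝ) (h1 : E0 (A 0) (prs γ 0) Z₁ a) :
    E0 (A 0) (prs γ 0) Z₁ (c • a) := by
  obtain ⟨ha1, ha2⟩ := h1
  constructor
  · intro l
    have := ha1 l
    simp only [Pi.smul_apply, smul_eq_mul, mul_assoc, ← Finset.mul_sum, this, mul_zero]
  · intro t ht
    have := ha2 t ht
    simp only [Pi.smul_apply, smul_eq_mul, mul_assoc, ← Finset.mul_sum, this, mul_zero]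

theorem E0_zero {Z₁ : Finset ℂ} : E0 (A 0) (prs γ 0) Z₁ (0 : Fin m → ℝ) := by
  constructor <;> simp

theorem Eqn_zero {R : ℝ} {b : Fin (r + 1)} {s : ℂ} :
    Eqn e P A γ y R b (0 : Fin m → ℝ) s 0 := by
  intro t _ _
  have h1 : gg (prs γ b) (0 : Fin m → ℝ) s t = 0 := by simp [gg, GP.gc]
  simp [h1, lam_zero]

theorem Eqn1_zero {Z₁ : Finset ℂ} {b : Fin (r + 1)} {s : ℂ} :
    Eqn1 P γ Z₁ b (0 : Fin m → ℝ) s 0 := by
  intro t _
  simp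

/-- The subspace `I_s`. -/
def Is (R : ℝ) (Z₁ : Finset ℂ) (b : Fin (r + 1)) (s : ℂ) : Submodule ℝ (Fin m → ℝ) where
  carrier := {a | E0 (A 0) (prs γ 0) Z₁ a ∧ ∃ μ : ℂ → ℝ, Eqn e P A γ y R b a s μ ∧
    Eqn1 P γ Z₁ b a s μ}
  zero_mem' := ⟨E0_zero A γ, 0, Eqn_zero e P A γ y, Eqn1_zero P γ⟩
  add_mem' := by
    rintro a a' ⟨ha, μ, ha3, ha4⟩ ⟨hb, ν, hb3, hb4⟩
    exact ⟨E0_add A γ ha hb, μ + ν, Eqn_add e P A γ y ha3 hb3, Eqn1_add P γ ha4 hb4⟩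
  smul_mem' := by
    rintro c a ⟨ha, μ, ha3, ha4⟩
    exact ⟨E0_smul A γ c ha, c • μ, Eqn_smul e P A γ y c ha3, Eqn1_smul P γ c ha4⟩

end

end Pool.Agent.T9h40.GC
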