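import Pool.Agent.T9h40.GC.Asm1
import Pool.Agent.T9h40.GP.Asm2

/-!
# Assembly for arbitrary curves, part 2: the common kernel is zero
-/

open Polynomial Filter Topology Bornology

namespace Pool.Agent.T9h40.GC

open Pool.Agent.T9h40.GP (ww rg qq HypP rts Br Asy MM uu bb gg bc gc la E0 bb_add bb_smul gg_add
  gg_smul la_add la_smul RgSub LogInt WwSub QqDiff Moment MomS Parts KeyLoc KeyGlob B5 FinKer Ext
  BrEx MatInv contDiff_uu uu_closed rg_symm rg_const_right isOpen_ext im_contDiffOn sub_ne_of_lt)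

/-- The context. -/
structure Ctx {n r m : ℕ} (e : Fin (r + 1) → ℕ) (P : Fin (r + 1) → Polynomial ℂ[X])
    (A : Fin (r + 1) → Fin n → ℂ[X]) (V : Set (Pt r)) (Z₁ : Finset ℂ)
    (γ : Fin m → Pth r) (B R R' : ℝ) (y : Fin (r + 1) → Fin n → ℂ → ℂ) : Prop where
  hyp : HypC n r e P A V
  onU : ∀ k, OnU V A Z₁ (γ k)
  Bpos : 0 < B
  bx : ∀ k, ∀ θ ∈ Set.Icc (0:ℝ) 1, ‖(γ k).x θ‖ ≤ B
  bw : ∀ k b, ∀ θ ∈ Set.Icc (0:ℝ) 1, ‖(γ k).w b θ‖ ≤ B
  BR : B ≤ R
  BR' : B ≤ R'
  br : ∀ b, Br n (P b) R R' (y b)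
  asy : Asy n (e 0) (A 0) R (y 0)
  fib : ∀ p ∈ V, R < ‖p.1‖ → ∃ j, ∀ i, p.2 i = y i j p.1
  fib' : ∀ t, R < ‖t‖ → ∀ j, ((t, fun i => y i j t) : Pt r) ∈ V
  det : ∀ t, R < ‖t‖ → IsUnit (MM (e 0) (A 0) (y 0) t).det
  inv : ∀ b : Fin n → ℂ → ℝ, (∀ l, ContDiffOn ℝ 1 (b l) {t | R < ‖t‖}) →
        (∀ l, Tendsto (b l) (cobounded ℂ) (𝓝 0)) →
        ∀ j, ContDiffOn ℝ 1 (fun t => ((MM (e 0) (A 0) (y 0) t)⁻¹.mulVec (fun l => b l t)) j)
            {t | R < ‖t‖} ∧
          Tendsto (fun t => ((MM (e 0) (A 0) (y 0) t)⁻¹.mulVec (fun l => b l t)) j)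
            (cobounded ℂ) (𝓝 0)

section
variable {n r m : ℕ} {e : Fin (r + 1) → ℕ} {P : Fin (r + 1) → Polynomial ℂ[X]}
  {A : Fin (r + 1) → Fin n → ℂ[X]} {V : Set (Pt r)} {Z₁ : Finset ℂ}
  {γ : Fin m → Pth r} {B R R' : ℝ} {y : Fin (r + 1) → Fin n → ℂ → ℂ}

theorem uu_ne (c : Ctx e P A V Z₁ γ B R R' y) (l : Fin n) (k : Fin m) (θ : ℝ) :
    uu (A 0) l (prs γ 0 k) θ ≠ 0 := by
  unfold uu
  exact sub_ne_zero.2 (((c.onU k) θ).2.1 l)

theorem cont_du (c : Ctx e P A V Z₁ γ B R R' y) (l : Fin n) (k : Fin m) :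
    ContinuousOn (fun θ => deriv (uu (A 0) l (prs γ 0 k)) θ / uu (A 0) l (prs γ 0 k) θ)
      (Set.Icc 0 1) := by
  apply Continuous.continuousOn
  apply Continuous.div
  · exact (contDiff_uu (A 0) l (prs γ 0 k)).continuous_deriv le_rfl
  · exact (contDiff_uu (A 0) l (prs γ 0 k)).continuous
  · exact uu_ne c l k

theorem cont_dw (c : Ctx e P A V Z₁ γ B R R' y) (b : Fin (r + 1)) (k : Fin m) {s : ℂ}
    (hs : B < ‖s‖) :
    ContinuousOn (fun θ => deriv (prs γ b k).y θ / ((prs γ b k).y θ - s)) (Set.Icc 0 1) := by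
  apply ContinuousOn.div
  · exact ((prs γ b k).hy.continuous_deriv le_rfl).continuousOn
  · exact ((prs γ b k).hy.continuous.sub continuous_const).continuousOn
  · exact sub_ne_of_lt (c.bw k b) hs

theorem bc_props (hQ : QqDiff) (c : Ctx e P A V Z₁ γ B R R' y) (a : Fin m → ℝ) (l : Fin n) :
    DifferentiableOn ℂ (bc (A 0) (prs γ 0) a l) {t | B < ‖t‖} ∧
      Tendsto (bc (A 0) (prs γ 0) a l) (cobounded ℂ) (𝓝 0) := by
  constructor
  · unfold bc
    apply DifferentiableOn.fun_sum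
    intro k _
    apply DifferentiableOn.const_mul
    exact (hQ _ _ B (cont_du c l k) (prs γ 0 k).hx.continuous.continuousOn c.Bpos (c.bx k)).1
  · unfold bc
    have : Tendsto (fun t => ∑ k, (a k : ℂ) *
        qq (fun θ => deriv (uu (A 0) l (prs γ 0 k)) θ / uu (A 0) l (prs γ 0 k) θ)
          (prs γ 0 k).x t⁻¹) (cobounded ℂ)
        (𝓝 (∑ k : Fin m, (a k : ℂ) * 0)) := by
      apply tendsto_finsetSum
      intro k _
      apply Tendsto.const_mul
      exact (hQ _ _ B (cont_du c l k) (prs γ 0 k).hx.continuous.continuousOn c.Bpos (c.bx k)).2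
    simpa using this

theorem gc_diff (hQ : QqDiff) (c : Ctx e P A V Z₁ γ B R R' y) (b : Fin (r + 1)) (a : Fin m → ℝ)
    {s : ℂ} (hs : B < ‖s‖) : DifferentiableOn ℂ (gc (prs γ b) a s) {t | B < ‖t‖} := by
  unfold gc
  apply DifferentiableOn.fun_sum
  intro k _
  apply DifferentiableOn.const_mul
  exact (hQ _ _ B (cont_dw c b k hs) (prs γ b k).hx.continuous.continuousOn c.Bpos (c.bx k)).1

theorem bb_props (hQ : QqDiff) (c : Ctx e P A V Z₁ γ B R R' y) (a : Fin m → ℝ) (l : Fin n) :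
    ContDiffOn ℝ 1 (bb (A 0) (prs γ 0) a l) {t | R < ‖t‖} ∧
      Tendsto (bb (A 0) (prs γ 0) a l) (cobounded ℂ) (𝓝 0) := by
  obtain ⟨h1, h2⟩ := bc_props hQ c a l
  refine ⟨im_contDiffOn c.BR h1, ?_⟩
  have h3 := (Complex.continuous_im.tendsto 0).comp h2
  have h4 : Tendsto (fun x => (bc (A 0) (prs γ 0) a l x).im) (cobounded ℂ) (𝓝 0) := by
    simpa [Function.comp_def] using h3
  exact h4

theorem gg_diff (hQ : QqDiff) (c : Ctx e P A V Z₁ γ B R R' y) (b : Fin (r + 1)) (a : Fin m → ℝ)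
    {s : ℂ} (hs : B < ‖s‖) : ∀ t, R < ‖t‖ → DifferentiableAt ℝ (gg (prs γ b) a s) t := by
  intro t ht
  have h1 := im_contDiffOn c.BR (gc_diff hQ c b a hs)
  have h2 : ContDiffAt ℝ 1 (gg (prs γ b) a s) t := h1.contDiffAt ((isOpen_ext R).mem_nhds ht)
  exact h2.differentiableAt (by norm_num)

theorem lam_props (hQ : QqDiff) (c : Ctx e P A V Z₁ γ B R R' y) (a : Fin m → ℝ) (j : Fin n) :
    ContDiffOn ℝ 1 (lam e A γ y a j) {t | R < ‖t‖} ∧
      Tendsto (lam e A γ y a j) (cobounded ℂ) (𝓝 0) :=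
  c.inv (bb (A 0) (prs γ 0) a) (fun l => (bb_props hQ c a l).1) (fun l => (bb_props hQ c a l).2) j

theorem lam_diffAt (hQ : QqDiff) (c : Ctx e P A V Z₁ γ B R R' y) (a : Fin m → ℝ) (j : Fin n) :
    ∀ t, R < ‖t‖ → DifferentiableAt ℝ (lam e A γ y a j) t := by
  intro t ht
  have h2 : ContDiffAt ℝ 1 (lam e A γ y a j) t :=
    (lam_props hQ c a j).1.contDiffAt ((isOpen_ext R).mem_nhds ht)
  exact h2.differentiableAt (by norm_num)

/-- `M L = b`. -/
theorem MM_lam (c : Ctx e P A V Z₁ γ B R R' y) (a : Fin m → ℝ) {t : ℂ} (ht : R < ‖t‖) :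
    (MM (e 0) (A 0) (y 0) t).mulVec (fun j => lam e A γ y a j t) =
      fun l => bb (A 0) (prs γ 0) a l t := by
  have := c.det t ht
  change (MM (e 0) (A 0) (y 0) t).mulVec ((MM (e 0) (A 0) (y 0) t)⁻¹.mulVec
    (fun l => bb (A 0) (prs γ 0) a l t)) = _
  rw [Matrix.mulVec_mulVec, Matrix.mul_nonsing_inv _ this, Matrix.one_mulVec]

theorem eval_ne (c : Ctx e P A V Z₁ γ B R R' y) (b : Fin (r + 1)) {s : ℂ} (hs : R' < ‖s‖) :
    (P b).eval (C s) ≠ 0 := by
  intro h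
  have h1 : evalEval 0 s (P b) = 0 := by simp [evalEval, h]
  have h2 := (c.br b).far 0 s hs h1
  have := (c.br b).Rpos
  simp at h2
  linarith

theorem mem_rts (c : Ctx e P A V Z₁ γ B R R' y) (b : Fin (r + 1)) {s : ℂ} (hs : R' < ‖s‖)
    (q : ℂ) : q ∈ rts (P b) s ↔ evalEval q s (P b) = 0 := by
  unfold rts
  rw [Multiset.mem_toFinset, mem_roots (eval_ne c b hs), IsRoot.def, evalEval]

theorem branch_of_mem (c : Ctx e P A V Z₁ γ B R R' y) (b : Fin (r + 1)) {s q : ℂ}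
    (hs : R' < ‖s‖) (hq : evalEval q s (P b) = 0) : R < ‖q‖ ∧ ∃ j, y b j q = s := by
  have h1 := (c.br b).far q s hs hq
  refine ⟨h1, ?_⟩
  have h2 := (c.br b).fac q h1 s
  rw [hq] at h2
  obtain ⟨j, _, hj⟩ := Finset.prod_eq_zero_iff.1 h2.symm
  exact ⟨j, (sub_eq_zero.1 hj).symm⟩

theorem dense_ne (c : Ctx e P A V Z₁ γ B R R' y) (b : Fin (r + 1)) {s : ℂ} (hs : R' < ‖s‖) :
    Dense {t : ℂ | evalEval t s (P b) ≠ 0} := by
  have h1 : {t : ℂ | evalEval t s (P b) ≠ 0} = ((rts (P b) s : Finset ℂ) : Set ℂ)ᶜ := by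
    ext t
    simp only [Set.mem_ofPred_eq, Set.mem_compl_iff, Finset.mem_coe]
    rw [mem_rts c b hs]
  rw [h1]
  exact Set.Countable.dense_compl ℂ (Finset.countable_toSet _)

theorem claimA (hRg : RgSub) (hLI : LogInt) (hWw : WwSub) (hQ : QqDiff) (hMo : Moment)
    (hMS : MomS) (hPa : Parts) (hKL : KeyLoc) (hKG : KeyGlob) (hB5 : B5)
    (c : Ctx e P A V Z₁ γ B R R' y) (hind : Indep A Z₁ γ) {K : Set ℂ} (hK : Dense K)
    {a : Fin m → ℝ} (ha : ∀ b, ∀ s ∈ K, R' < ‖s‖ → a ∈ Is e P A γ y R Z₁ b s) : a = 0 := by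
  classical
  have hBpos := c.Bpos
  -- E0
  have hE0 : E0 (A 0) (prs γ 0) Z₁ a := by
    obtain ⟨s, hsK, hs⟩ : ∃ s ∈ K, R' < ‖s‖ := by
      have := hK.exists_mem_open (isOpen_ext R') ⟨((|R'| + 1 : ℝ) : ℂ), by
        simp only [Set.mem_ofPred_eq, Complex.norm_real, Real.norm_eq_abs]
        have h1 := le_abs_self R'
        have h2 := le_abs_self (|R'| + 1)
        linarith⟩
      obtain ⟨s, h1, h2⟩ := this
      exact ⟨s, h1, h2⟩
    exact (ha 0 s hsK hs).1
  -- the derivative of `lam` vanishes on the branches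
  have hder : ∀ j t, R < ‖t‖ → y 0 j t ∈ K → R' < ‖y 0 j t‖ →
      fderiv ℝ (lam e A γ y a j) t = 0 := by
    intro j t ht hyK hys
    obtain ⟨-, μ, h1, -⟩ := ha 0 _ hyK hys
    have hmem : t ∈ rts (P 0) (y 0 j t) := by
      rw [mem_rts c 0 hys, (c.br 0).fac t ht]
      exact Finset.prod_eq_zero (Finset.mem_univ j) (sub_self _)
    exact (hKL n (P 0) R R' (y 0) (c.br 0) (lam e A γ y a) (gg (prs γ 0) a (y 0 j t)) (y 0 j t) μ
      hys (fun j => lam_diffAt hQ c a j) (gg_diff hQ c 0 a (lt_of_le_of_lt c.BR' hys)) h1 t hmem j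
      rfl).2
  obtain ⟨R₂, hR₂, hla⟩ := hKG n (P 0) R R' (y 0) K (c.br 0) hK (lam e A γ y a)
    (fun j => (lam_props hQ c a j).1) (fun j => (lam_props hQ c a j).2) hder
  -- `bb = 0` far out
  have hbb : ∀ l t, R₂ < ‖t‖ → bb (A 0) (prs γ 0) a l t = 0 := by
    intro l t ht
    have h1 := MM_lam c a (lt_of_le_of_lt hR₂ ht)
    have h2 : (fun j => lam e A γ y a j t) = 0 := by
      ext j
      exact hla j t ht
    rw [h2, Matrix.mulVec_zero] at h1
    exact (congrFun h1 l).symm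
  -- moments of `d log u_l`
  have hU : ∀ (l : Fin n) (i : ℕ), ∑ k, (a k : ℂ) * ∫ θ in (0:ℝ)..1, (γ k).x θ ^ i *
        (deriv (uu (A 0) l (prs γ 0 k)) θ / uu (A 0) l (prs γ 0 k) θ) = 0 := by
    intro l i
    rcases Nat.eq_zero_or_pos i with hi | hi
    · subst hi
      have h1 : ∀ k, ∫ θ in (0:ℝ)..1, (γ k).x θ ^ 0 *
          (deriv (uu (A 0) l (prs γ 0 k)) θ / uu (A 0) l (prs γ 0 k) θ) =
            Complex.I * ww (uu (A 0) l (prs γ 0 k)) := by
        intro k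
        rw [← hLI (uu (A 0) l (prs γ 0 k)) (contDiff_uu (A 0) l (prs γ 0 k))
          (fun θ _ => uu_ne c l k θ) (uu_closed (A 0) l (prs γ 0 k))]
        simp
      simp only [h1]
      have h2 := hE0.1 l
      have h3 : ∑ k, (a k : ℂ) * (Complex.I * (ww (uu (A 0) l (prs γ 0 k)) : ℂ)) =
          Complex.I * ((∑ k, a k * ww (uu (A 0) l (prs γ 0 k)) : ℝ) : ℂ) := by
        push_cast
        rw [Finset.mul_sum]
        apply Finset.sum_congr rfl
        intro k _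
        ring
      rw [h3, h2]
      simp
    · have h1 := hMo m a (fun k θ => deriv (uu (A 0) l (prs γ 0 k)) θ / uu (A 0) l (prs γ 0 k) θ)
        (fun k => (γ k).x) B R₂ Set.univ dense_univ c.Bpos (c.BR.trans hR₂)
        (fun k => cont_du c l k) (fun k => (γ k).hx.continuous.continuousOn) c.bx
        (fun t _ ht => hbb l t ht) i hi
      rw [← h1]
      apply Finset.sum_congr rfl
      intro k _
      congr 2
      ext θ
      ring
  -- large `s`: `μ = 0` and `gg = 0` far out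
  have hB5' : ∀ b, ∃ R₃ : ℝ, max R₂ R' ≤ R₃ ∧ 0 < R₃ ∧
      ∀ x s, R₃ < ‖s‖ → evalEval x s (P b) = 0 → max R₂ R' < ‖x‖ :=
    fun b => hB5 (P b) (c.hyp.hyp b).monic (max R₂ R')
  choose R₃ hR₃ hR₃p hfar using hB5'
  have hR₃' : ∀ b, R' ≤ R₃ b := fun b => (le_max_right _ _).trans (hR₃ b)
  have hR₂₃ : ∀ b, R₂ ≤ R₃ b := fun b => (le_max_left _ _).trans (hR₃ b)
  have hmu : ∀ b, ∀ s ∈ K, R₃ b < ‖s‖ → ∃ μ : ℂ → ℝ, Eqn e P A γ y R b a s μ ∧
      Eqn1 P γ Z₁ b a s μ ∧ ∀ q ∈ rts (P b) s, μ q = 0 := by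
    intro b s hsK hs
    have hs' : R' < ‖s‖ := lt_of_le_of_lt (hR₃' b) hs
    obtain ⟨-, μ, h1, h2⟩ := ha b s hsK hs'
    refine ⟨μ, h1, h2, ?_⟩
    intro q hq
    have hq0 : evalEval q s (P b) = 0 := (mem_rts c b hs' q).1 hq
    obtain ⟨hqR, j, hj⟩ := branch_of_mem c b hs' hq0
    have h3 := (hKL n (P b) R R' (y b) (c.br b) (lam e A γ y a) (gg (prs γ b) a s) s μ hs'
      (fun j => lam_diffAt hQ c a j) (gg_diff hQ c b a (lt_of_le_of_lt c.BR' hs')) h1 q hq j hj).1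
    rw [h3]
    exact hla j q (lt_of_le_of_lt (le_max_left _ _) (hfar b q s hs hq0))
  have hgg : ∀ b, ∀ s ∈ K, R₃ b < ‖s‖ → ∀ t ∈ {t : ℂ | evalEval t s (P b) ≠ 0}, R₂ < ‖t‖ →
      gg (prs γ b) a s t = 0 := by
    intro b s hsK hs t ht0 ht
    obtain ⟨μ, h1, -, h3⟩ := hmu b s hsK hs
    have h4 := h1 t (lt_of_le_of_lt hR₂ ht) ht0
    have h5 : ∑ j, lam e A γ y a j t * Real.log ‖y b j t - s‖ = 0 := by
      apply Finset.sum_eq_zero
      intro j _
      rw [hla j t ht, zero_mul]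
    have h6 : ∑ q ∈ rts (P b) s, μ q * Real.log ‖q - t‖ = 0 := by
      apply Finset.sum_eq_zero
      intro q hq
      rw [h3 q hq, zero_mul]
    rw [h5, h6] at h4
    linarith
  -- moments in `x` of `dw / (w - s)`
  have hdy : ∀ b, ∀ s ∈ K, R₃ b < ‖s‖ → ∀ i : ℕ, ∑ k, (a k : ℂ) * ∫ θ in (0:ℝ)..1,
      ((γ k).x θ ^ i * deriv ((γ k).w b) θ) / ((γ k).w b θ - s) = 0 := by
    intro b s hsK hs i
    have hs' : R' < ‖s‖ := lt_of_le_of_lt (hR₃' b) hs
    have hsB : B < ‖s‖ := lt_of_le_of_lt c.BR' hs'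
    rcases Nat.eq_zero_or_pos i with hi | hi
    · subst hi
      apply Finset.sum_eq_zero
      intro k _
      have h1 := (hWw ((γ k).w b) s ((γ k).hw b) ((γ k).cw b)
        (fun θ hθ => lt_of_le_of_lt (c.bw k b θ hθ) hsB)).2
      simp only [pow_zero, one_mul, h1, mul_zero]
    · have h1 := hMo m a (fun k θ => deriv ((γ k).w b) θ / ((γ k).w b θ - s))
        (fun k => (γ k).x) B R₂ {t : ℂ | evalEval t s (P b) ≠ 0} (dense_ne c b hs') c.Bpos
        (c.BR.trans hR₂) (fun k => cont_dw c b k hsB)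
        (fun k => (γ k).hx.continuous.continuousOn) c.bx
        (fun t ht0 ht => hgg b s hsK hs t ht0 ht) i hi
      rw [← h1]
      apply Finset.sum_congr rfl
      intro k _
      congr 2
      ext θ
      ring
  have hxy : ∀ b, ∀ i j : ℕ, ∑ k, (a k : ℂ) * ∫ θ in (0:ℝ)..1,
      (γ k).x θ ^ i * (γ k).w b θ ^ j * deriv ((γ k).w b) θ = 0 := by
    intro b i j
    have h1 := hMS m a (fun k θ => (γ k).x θ ^ i * deriv ((γ k).w b) θ) (fun k => (γ k).w b) B
      (R₃ b) K hK c.Bpos ((c.BR.trans hR₂).trans (hR₂₃ b))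
      (fun k => (((γ k).hx.continuous.pow i).mul
        (((γ k).hw b).continuous_deriv le_rfl)).continuousOn)
      (fun k => ((γ k).hw b).continuous.continuousOn) (fun k => c.bw k b)
      (fun s hsK hs => hdy b s hsK hs i) j
    rw [← h1]
    apply Finset.sum_congr rfl
    intro k _
    congr 2
    ext θ
    ring
  apply hind a
  · -- (i)
    intro b i j
    rcases Nat.eq_zero_or_pos j with hj | hj
    · subst hj
      apply Finset.sum_eq_zero
      intro k _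
      have h1 := (hPa (prs γ b k)).1 i
      simp only [pow_zero, mul_one]
      rw [show ∫ θ in (0:ℝ)..1, (γ k).x θ ^ i * deriv (γ k).x θ = 0 from h1, mul_zero]
    · obtain ⟨j, rfl⟩ : ∃ j', j = j' + 1 := ⟨j - 1, by omega⟩
      have h1 : ((i : ℂ) + 1) * ∑ k, (a k : ℂ) * ∫ θ in (0:ℝ)..1,
          (γ k).x θ ^ i * (γ k).w b θ ^ (j + 1) * deriv (γ k).x θ =
          - ((j : ℂ) + 1) * ∑ k, (a k : ℂ) * ∫ θ in (0:ℝ)..1,
          (γ k).x θ ^ (i + 1) * (γ k).w b θ ^ j * deriv ((γ k).w b) θ := by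
        rw [Finset.mul_sum, Finset.mul_sum]
        apply Finset.sum_congr rfl
        intro k _
        have : ((i : ℂ) + 1) * ∫ θ in (0:ℝ)..1, (γ k).x θ ^ i * (γ k).w b θ ^ (j + 1) *
            deriv (γ k).x θ = - ((j : ℂ) + 1) * ∫ θ in (0:ℝ)..1,
            (γ k).x θ ^ (i + 1) * (γ k).w b θ ^ j * deriv ((γ k).w b) θ :=
          (hPa (prs γ b k)).2 i j
        linear_combination (a k : ℂ) * this
      rw [hxy b (i + 1) j, mul_zero] at h1
      rcases mul_eq_zero.1 h1 with h2 | h2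
      · exfalso
        have : ((i : ℂ) + 1) ≠ 0 := by
          exact_mod_cast Nat.succ_ne_zero i
        exact this h2
      · exact h2
  · -- (ii)
    intro l i
    exact hU l i
  · -- (iii)
    intro t ht b j
    have hxt : ∀ k θ, (γ k).x θ - t ≠ 0 := by
      intro k θ h
      apply (c.onU k θ).2.2
      rw [sub_eq_zero.1 h]
      exact ht
    have hcd : ∀ k, ContDiff ℝ 1 (fun θ => (γ k).x θ - t) := fun k =>
      (γ k).hx.sub contDiff_const
    have hdd : ∀ k θ, deriv (fun θ => (γ k).x θ - t) θ = deriv (γ k).x θ := by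
      intro k θ
      simp
    have hE02 : ∑ k, a k * ww (fun θ => (γ k).x θ - t) = 0 := hE0.2 t ht
    rcases Nat.eq_zero_or_pos j with hj | hj
    · subst hj
      have h1 : ∀ k, ∫ θ in (0:ℝ)..1, (γ k).w b θ ^ 0 * (deriv (γ k).x θ / ((γ k).x θ - t)) =
          Complex.I * ww (fun θ => (γ k).x θ - t) := by
        intro k
        rw [← hLI (fun θ => (γ k).x θ - t) (hcd k) (fun θ _ => hxt k θ) (by rw [(γ k).cx])]
        simp only [hdd, pow_zero, one_mul]
      simp only [h1]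
      have h3 : ∑ k, (a k : ℂ) * (Complex.I * (ww (fun θ => (γ k).x θ - t) : ℂ)) =
          Complex.I * ((∑ k, a k * ww (fun θ => (γ k).x θ - t) : ℝ) : ℂ) := by
        push_cast
        rw [Finset.mul_sum]
        apply Finset.sum_congr rfl
        intro k _
        ring
      rw [h3, hE02]
      simp
    · have hcont : ∀ k, ContinuousOn (fun θ => deriv (fun θ => (γ k).x θ - t) θ /
          ((γ k).x θ - t)) (Set.Icc 0 1) := by
        intro k
        apply Continuous.continuousOn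
        exact ((hcd k).continuous_deriv le_rfl).div (hcd k).continuous (hxt k)
      have h1 := hMo m a (fun k θ => deriv (fun θ => (γ k).x θ - t) θ / ((γ k).x θ - t))
        (fun k => (γ k).w b) B (R₃ b) K hK c.Bpos ((c.BR.trans hR₂).trans (hR₂₃ b)) hcont
        (fun k => ((γ k).hw b).continuous.continuousOn) (fun k => c.bw k b) ?_ j hj
      · rw [← h1]
        apply Finset.sum_congr rfl
        intro k _
        congr 2
        ext θ
        rw [hdd]
        ring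
      · intro s hsK hs
        have hs' : R' < ‖s‖ := lt_of_le_of_lt (hR₃' b) hs
        have hsB : B < ‖s‖ := lt_of_le_of_lt c.BR' hs'
        obtain ⟨μ, -, h2, h3⟩ := hmu b s hsK hs
        have h4 := h2 t ht
        have h5 : ∑ q ∈ rts (P b) s, μ q * Real.log ‖q - t‖ = 0 := by
          apply Finset.sum_eq_zero
          intro q hq
          rw [h3 q hq, zero_mul]
        rw [h5] at h4
        have h6 : ∀ k, rg (fun θ => (γ k).w b θ - s) (fun θ => (γ k).x θ - t) =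
            Real.log ‖s‖ * ww (fun θ => (γ k).x θ - t) +
              (qq (fun θ => deriv (fun θ => (γ k).x θ - t) θ / ((γ k).x θ - t))
                ((γ k).w b) s⁻¹).im := by
          intro k
          rw [rg_symm, hRg (fun θ => (γ k).x θ - t) ((γ k).w b) s (hcd k) (fun θ _ => hxt k θ)
            (by rw [(γ k).cx]) ((γ k).hw b) ((γ k).cw b)
            (fun θ hθ => lt_of_le_of_lt (c.bw k b θ hθ) hsB)]
          ring
        simp only [h6, mul_add, Finset.sum_add_distrib] at h4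
        have h7 : ∑ k, a k * (Real.log ‖s‖ * ww (fun θ => (γ k).x θ - t)) = 0 := by
          have : ∑ k, a k * (Real.log ‖s‖ * ww (fun θ => (γ k).x θ - t)) =
              Real.log ‖s‖ * ∑ k, a k * ww (fun θ => (γ k).x θ - t) := by
            rw [Finset.mul_sum]
            apply Finset.sum_congr rfl
            intro k _
            ring
          rw [this, hE02, mul_zero]
        rw [h7, zero_add] at h4
        rw [Complex.im_sum]
        rw [← h4]
        apply Finset.sum_congr rfl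
        intro k _
        simp

end

end Pool.Agent.T9h40.GC
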