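import Pool.Agent.T9h40.GC.Asm2

/-!
# Assembly for arbitrary curves, part 3
-/

open Polynomial Filter Topology Bornology

namespace Pool.Agent.T9h40.GC

open Pool.Agent.T9h40.GP (ww rg qq HypP rts Br Asy MM uu bb gg bc gc la E0 bb_add bb_smul gg_add
  gg_smul la_add la_smul RgSub LogInt WwSub QqDiff Moment MomS Parts KeyLoc KeyGlob B5 FinKer Ext
  BrEx MatInv contDiff_uu uu_closed rg_symm rg_const_right isOpen_ext im_contDiffOn sub_ne_of_lt)

section
variable {n r m : ℕ} {e : Fin (r + 1) → ℕ} {P : Fin (r + 1) → Polynomial ℂ[X]}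
  {A : Fin (r + 1) → Fin n → ℂ[X]} {V : Set (Pt r)} {Z₁ : Finset ℂ}
  {γ : Fin m → Pth r} {B R R' : ℝ} {y : Fin (r + 1) → Fin n → ℂ → ℂ}

theorem NN_far (c : Ctx e P A V Z₁ γ B R R' y) {Z : Finset ℂ} {S : Finset (Fin (r + 1) × ℂ)}
    (hZ : ∀ t ∈ Z, R < ‖t‖) (hS : ∀ q ∈ S, R' < ‖q.2‖) {p : Pt r} (hp : p ∈ NN V Z S) :
    R < ‖p.1‖ := by
  rcases hp.2 with h | ⟨i, h⟩
  · exact hZ _ h
  · exact (branch_of_mem c i (hS _ h) (c.hyp.on p hp.1 i)).1

theorem NN_branch (c : Ctx e P A V Z₁ γ B R R' y) {Z : Finset ℂ} {S : Finset (Fin (r + 1) × ℂ)}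
    (hZ : ∀ t ∈ Z, R < ‖t‖) (hS : ∀ q ∈ S, R' < ‖q.2‖) {p : Pt r} (hp : p ∈ NN V Z S) :
    R < ‖p.1‖ ∧ ∃ j, ∀ i, p.2 i = y i j p.1 :=
  ⟨NN_far c hZ hS hp, c.fib p hp.1 (NN_far c hZ hS hp)⟩

/-- a point is determined by `x` and one `w_i`. -/
theorem NN_inj (c : Ctx e P A V Z₁ γ B R R' y) {Z : Finset ℂ} {S : Finset (Fin (r + 1) × ℂ)}
    (hZ : ∀ t ∈ Z, R < ‖t‖) (hS : ∀ q ∈ S, R' < ‖q.2‖) {p p' : Pt r} (hp : p ∈ NN V Z S)
    (hp' : p' ∈ NN V Z S) (h1 : p.1 = p'.1) (i : Fin (r + 1)) (h2 : p.2 i = p'.2 i) :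
    p = p' := by
  obtain ⟨hR, j, hj⟩ := NN_branch c hZ hS hp
  obtain ⟨hR', j', hj'⟩ := NN_branch c hZ hS hp'
  have h3 : j = j' := by
    apply (c.br i).inj p.1 hR
    show y i j p.1 = y i j' p.1
    rw [← hj i, h2, hj' i, h1]
  subst h3
  ext k
  · exact h1
  · rw [hj k, hj' k, h1]

theorem sumX (c : Ctx e P A V Z₁ γ B R R' y) {Z : Finset ℂ} {S : Finset (Fin (r + 1) × ℂ)} {t : ℂ}
    (htZ : t ∈ Z) (ht : R < ‖t‖)
    (Nf : Finset (Pt r)) (hNf : ∀ p, p ∈ Nf ↔ p ∈ NN V Z S) (H : Pt r → ℝ) :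
    ∑ p ∈ Nf, (if p.1 = t then H p else 0) = ∑ j, H (t, fun i => y i j t) := by
  classical
  rw [← Finset.sum_filter]
  symm
  apply Finset.sum_nbij (fun j => ((t, fun i => y i j t) : Pt r))
  · intro j _
    rw [Finset.mem_filter, hNf]
    exact ⟨⟨c.fib' t ht j, Or.inl htZ⟩, rfl⟩
  · intro i _ j _ hij
    have h1 := congrArg Prod.snd hij
    exact (c.br 0).inj t ht (congrFun h1 0)
  · intro p hp
    rw [Finset.mem_coe, Finset.mem_filter, hNf] at hp
    obtain ⟨⟨h1, -⟩, h2⟩ := hp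
    obtain ⟨j, hj⟩ := c.fib p h1 (by rw [h2]; exact ht)
    refine ⟨j, by simp, ?_⟩
    ext i
    · exact h2.symm
    · show y i j t = p.2 i
      rw [hj i, h2]
  · intro j _
    rfl

open Classical in
/-- The coefficient of the point over `q` with `w_b = s`. -/
noncomputable def mu (Nf : Finset (Pt r)) (Λ' : Pt r → ℝ) (b : Fin (r + 1)) (s q : ℂ) : ℝ :=
  ∑ p ∈ Nf.filter (fun p => p.2 b = s ∧ p.1 = q), Λ' p

theorem sumY (c : Ctx e P A V Z₁ γ B R R' y) {Z : Finset ℂ} {S : Finset (Fin (r + 1) × ℂ)}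
    {b : Fin (r + 1)} {s : ℂ} (hs : R' < ‖s‖)
    (Nf : Finset (Pt r)) (hNf : ∀ p, p ∈ Nf ↔ p ∈ NN V Z S) (Λ' : Pt r → ℝ) (H : ℂ → ℝ) :
    ∑ p ∈ Nf, (if p.2 b = s then Λ' p * H p.1 else 0) =
      ∑ q ∈ rts (P b) s, mu Nf Λ' b s q * H q := by
  classical
  rw [← Finset.sum_filter]
  have h1 : ∀ p ∈ Nf.filter (fun p => p.2 b = s), p.1 ∈ rts (P b) s := by
    intro p hp
    rw [Finset.mem_filter, hNf] at hp
    rw [mem_rts c b hs, ← hp.2]
    exact c.hyp.on p hp.1.1 b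
  rw [← Finset.sum_fiberwise_of_maps_to h1]
  apply Finset.sum_congr rfl
  intro q _
  unfold mu
  rw [Finset.sum_mul, Finset.filter_filter]
  apply Finset.sum_congr
  · congr
  · intro p hp
    rw [Finset.mem_filter] at hp
    rw [hp.2.2]

theorem mu_eq (c : Ctx e P A V Z₁ γ B R R' y) {Z : Finset ℂ} {S : Finset (Fin (r + 1) × ℂ)}
    (hZ : ∀ t ∈ Z, R < ‖t‖) (hS : ∀ q ∈ S, R' < ‖q.2‖)
    (Nf : Finset (Pt r)) (hNf : ∀ p, p ∈ Nf ↔ p ∈ NN V Z S) (Λ' : Pt r → ℝ) {p : Pt r}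
    (hp : p ∈ Nf) (b : Fin (r + 1)) : mu Nf Λ' b (p.2 b) p.1 = Λ' p := by
  classical
  unfold mu
  rw [Finset.sum_eq_single p]
  · intro p' hp' hne
    exfalso
    apply hne
    rw [Finset.mem_filter] at hp'
    exact NN_inj c hZ hS ((hNf p').1 hp'.1) ((hNf p).1 hp) hp'.2.2 b hp'.2.1
  · intro h
    exfalso
    apply h
    rw [Finset.mem_filter]
    exact ⟨hp, rfl, rfl⟩

theorem NN_finite (c : Ctx e P A V Z₁ γ B R R' y) {Z : Finset ℂ} {S : Finset (Fin (r + 1) × ℂ)}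
    (hZ : ∀ t ∈ Z, R < ‖t‖) (hS : ∀ q ∈ S, R' < ‖q.2‖) : (NN V Z S).Finite := by
  classical
  set X : Finset ℂ := Z ∪ S.biUnion (fun q => rts (P q.1) q.2) with hX
  have h1 : NN V Z S ⊆ ((X.biUnion (fun t => Finset.univ.image
      (fun j => ((t, fun i => y i j t) : Pt r)))) : Finset (Pt r)) := by
    intro p hp
    obtain ⟨hR, j, hj⟩ := NN_branch c hZ hS hp
    rw [Finset.mem_coe, Finset.mem_biUnion]
    refine ⟨p.1, ?_, ?_⟩
    · rw [hX, Finset.mem_union]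
      rcases hp.2 with h | ⟨i, h⟩
      · exact Or.inl h
      · right
        rw [Finset.mem_biUnion]
        exact ⟨(i, p.2 i), h, (mem_rts c i (hS _ h) _).2 (c.hyp.on p hp.1 i)⟩
    · rw [Finset.mem_image]
      refine ⟨j, Finset.mem_univ _, ?_⟩
      ext i
      · rfl
      · exact (hj i).symm
  exact (Finset.finite_toSet _).subset h1

/-- simple roots in `w`. -/
theorem der_y {n : ℕ} {P : Polynomial ℂ[X]} {R R' : ℝ} {y : Fin n → ℂ → ℂ} (br : Br n P R R' y)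
    {t : ℂ} (ht : R < ‖t‖) (j : Fin n) : evalEval t (y j t) (derivative P) ≠ 0 := by
  classical
  have h1 : P.map (evalRingHom t) = ∏ i, (X - C (y i t)) := by
    apply Polynomial.funext
    intro s
    have h2 := br.fac t ht s
    rw [eval_prod]
    simp only [eval_sub, eval_X, eval_C]
    rw [← h2, ← map_evalRingHom_eval]
  have h2 : evalEval t (y j t) (derivative P) =
      (derivative (∏ i, (X - C (y i t)))).eval (y j t) := by
    rw [← h1, ← map_evalRingHom_eval, derivative_map]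
  rw [h2]
  have h3 : (∏ i, (X - C (y i t))).Separable :=
    separable_prod_X_sub_C_iff.2 (br.inj t ht)
  intro h4
  have h5 : (∏ i, (X - C (y i t))).eval (y j t) = 0 := by
    rw [eval_prod]
    exact Finset.prod_eq_zero (Finset.mem_univ j) (by simp)
  obtain ⟨u, v, huv⟩ := h3
  have h6 := congrArg (eval (y j t)) huv
  simp only [eval_add, eval_mul, h5, h4, mul_zero, add_zero, eval_one] at h6
  exact zero_ne_one h6

/-- simple roots in `x`. -/
theorem der_x {n : ℕ} {P : Polynomial ℂ[X]} {R R' : ℝ} {y : Fin n → ℂ → ℂ} (br : Br n P R R' y)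
    {s x : ℂ} (hs : R' < ‖s‖) (hx : evalEval x s P = 0) :
    (derivative (P.eval (C s))).eval x ≠ 0 := by
  classical
  have hR := br.far x s hs hx
  obtain ⟨j, hj⟩ : ∃ j, y j x = s := by
    have h2 := br.fac x hR s
    rw [hx] at h2
    obtain ⟨j, _, hj⟩ := Finset.prod_eq_zero_iff.1 h2.symm
    exact ⟨j, (sub_eq_zero.1 hj).symm⟩
  have h1 : HasDerivAt (fun t => (P.eval (C s)).eval t) ((derivative (P.eval (C s))).eval x) x :=
    (P.eval (C s)).hasDerivAt x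
  have h2 : (fun t => (P.eval (C s)).eval t) =ᶠ[𝓝 x] fun t => ∏ i, (s - y i t) := by
    filter_upwards [(isOpen_ext R).mem_nhds hR] with t ht
    exact br.fac t ht s
  have h3 : ∀ i, HasDerivAt (fun t => s - y i t) (- deriv (y i) x) x := by
    intro i
    have : DifferentiableAt ℂ (y i) x :=
      (br.diff i).differentiableAt ((isOpen_ext R).mem_nhds hR)
    simpa using this.hasDerivAt.const_sub s
  have h4 : HasDerivAt (fun t => ∏ i, (s - y i t))
      (∑ i, (∏ k ∈ Finset.univ.erase i, (s - y k x)) • (- deriv (y i) x)) x :=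
    HasDerivAt.fun_finsetProd (fun i _ => h3 i)
  have h5 := (h1.congr_of_eventuallyEq h2.symm).unique h4
  rw [h5]
  rw [Finset.sum_eq_single j]
  · rw [smul_eq_mul]
    apply mul_ne_zero
    · rw [Finset.prod_ne_zero_iff]
      intro i hi h6
      have h7 : y i x = y j x := by rw [hj]; exact (sub_eq_zero.1 h6).symm
      exact (Finset.ne_of_mem_erase hi) (br.inj x hR h7)
    · exact neg_ne_zero.2 (br.der j x hR)
  · intro i _ hij
    rw [Finset.prod_eq_zero (Finset.mem_erase.2 ⟨hij.symm, Finset.mem_univ j⟩)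
      (by rw [hj]; ring), zero_smul]
  · intro h
    exact absurd (Finset.mem_univ j) h

/-! ## The second finiteness argument -/

/-- index set of the unknown coefficients -/
noncomputable def QF (P : Fin (r + 1) → Polynomial ℂ[X]) (S : Finset (Fin (r + 1) × ℂ)) :
    Finset ((Fin (r + 1) × ℂ) × ℂ) :=
  S.biUnion (fun q => (rts (P q.1) q.2).image (fun z => (q, z)))

open Classical in
/-- extension by zero -/
noncomputable def mext {P : Fin (r + 1) → Polynomial ℂ[X]} {S : Finset (Fin (r + 1) × ℂ)}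
    (μ : {p // p ∈ QF P S} → ℝ) (q : Fin (r + 1) × ℂ) (z : ℂ) :
    ℝ := if h : (q, z) ∈ QF P S then μ ⟨(q, z), h⟩ else 0

theorem mext_add {S : Finset (Fin (r + 1) × ℂ)} (μ ν : {p // p ∈ QF P S} → ℝ)
    (q : Fin (r + 1) × ℂ) : mext (μ + ν) q = mext μ q + mext ν q := by
  ext z
  unfold mext
  simp only [Pi.add_apply]
  split_ifs <;> simp

theorem mext_smul {S : Finset (Fin (r + 1) × ℂ)} (c : ℝ) (μ : {p // p ∈ QF P S} → ℝ)
    (q : Fin (r + 1) × ℂ) : mext (c • μ) q = c • mext μ q := by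
  ext z
  unfold mext
  simp only [Pi.smul_apply]
  split_ifs <;> simp

theorem mext_zero {S : Finset (Fin (r + 1) × ℂ)} (q : Fin (r + 1) × ℂ) :
    mext (0 : {p // p ∈ QF P S} → ℝ) q = 0 := by
  ext z
  unfold mext
  simp

/-- The conditions not involving large `t`. -/
def W0 (A : Fin (r + 1) → Fin n → ℂ[X]) (γ : Fin m → Pth r)
    (P : Fin (r + 1) → Polynomial ℂ[X]) (Z₁ : Finset ℂ) (S : Finset (Fin (r + 1) × ℂ)) :
    Submodule ℝ ((Fin m → ℝ) × ({p // p ∈ QF P S} → ℝ)) where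
  carrier := {v | E0 (A 0) (prs γ 0) Z₁ v.1 ∧ ∀ q ∈ S, Eqn1 P γ Z₁ q.1 v.1 q.2 (mext v.2 q)}
  zero_mem' := by
    refine ⟨E0_zero A γ, ?_⟩
    intro q _
    have : mext ((0 : (Fin m → ℝ) × ({p // p ∈ QF P S} → ℝ)).2) q = 0 := mext_zero q
    rw [this]
    exact Eqn1_zero P γ
  add_mem' := by
    rintro a b ⟨ha, ha4⟩ ⟨hb, hb4⟩
    refine ⟨E0_add A γ ha hb, ?_⟩
    intro q hq
    rw [Prod.fst_add, Prod.snd_add, mext_add]
    exact Eqn1_add P γ (ha4 q hq) (hb4 q hq)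
  smul_mem' := by
    rintro c a ⟨ha, ha4⟩
    refine ⟨E0_smul A γ c ha, ?_⟩
    intro q hq
    rw [Prod.smul_fst, Prod.smul_snd, mext_smul]
    exact Eqn1_smul P γ c (ha4 q hq)

/-- The condition at `t`. -/
def Wt (e : Fin (r + 1) → ℕ) (A : Fin (r + 1) → Fin n → ℂ[X]) (γ : Fin m → Pth r)
    (y : Fin (r + 1) → Fin n → ℂ → ℂ) (P : Fin (r + 1) → Polynomial ℂ[X])
    (S : Finset (Fin (r + 1) × ℂ)) (t : ℂ) :
    Submodule ℝ ((Fin m → ℝ) × ({p // p ∈ QF P S} → ℝ)) where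
  carrier := {v | ∀ q ∈ S, - gg (prs γ q.1) v.1 q.2 t +
      ∑ j, lam e A γ y v.1 j t * Real.log ‖y q.1 j t - q.2‖ =
      ∑ z ∈ rts (P q.1) q.2, mext v.2 q z * Real.log ‖z - t‖}
  zero_mem' := by
    intro q _
    have h1 : gg (prs γ q.1) (0 : Fin m → ℝ) q.2 t = 0 := by simp [gg, GP.gc]
    simp [h1, lam_zero, mext_zero]
  add_mem' := by
    intro a b ha hb q hq
    have e1 := ha q hq
    have e2 := hb q hq
    simp only [Prod.fst_add, Prod.snd_add, gg_add, lam_add, mext_add, Pi.add_apply, add_mul,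
      Finset.sum_add_distrib]
    linarith
  smul_mem' := by
    intro c a ha q hq
    have e1 := ha q hq
    simp only [Prod.smul_fst, Prod.smul_snd, gg_smul, lam_smul, mext_smul, Pi.smul_apply,
      smul_eq_mul, mul_assoc, ← Finset.mul_sum]
    rw [← e1]
    ring

/-- The choice of `S` and `Z`. -/
theorem choose_ZS (hRg : RgSub) (hLI : LogInt) (hWw : WwSub) (hQ : QqDiff) (hMo : Moment)
    (hMS : MomS) (hPa : Parts) (hKL : KeyLoc) (hKG : KeyGlob) (hB5 : B5) (hF : FinKer)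
    (hExt : Ext)
    (c : Ctx e P A V Z₁ γ B R R' y) (hind : Indep A Z₁ γ) {K : Set ℂ} (hK : Dense K) :
    ∃ (Z : Finset ℂ) (S : Finset (Fin (r + 1) × ℂ)), (∀ t ∈ Z, t ∈ K ∧ R < ‖t‖) ∧
      (∀ q ∈ S, q.2 ∈ K ∧ R' < ‖q.2‖) ∧
      (∀ t ∈ Z, ∀ q ∈ S, evalEval t q.2 (P q.1) ≠ 0) ∧
      ∀ v : (Fin m → ℝ) × ({p // p ∈ QF P S} → ℝ), v ∈ W0 A γ P Z₁ S →
        (∀ t ∈ Z, v ∈ Wt e A γ y P S t) → v = 0 := by
  classical
  obtain ⟨S₀, hS₀⟩ := hF (Fin m → ℝ) {q : Fin (r + 1) × ℂ // q.2 ∈ K ∧ R' < ‖q.2‖}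
    (fun q => Is e P A γ y R Z₁ q.1.1 q.1.2) (by
      intro a ha
      exact claimA hRg hLI hWw hQ hMo hMS hPa hKL hKG hB5 c hind hK
        (fun b s h1 h2 => ha ⟨(b, s), h1, h2⟩))
  set S : Finset (Fin (r + 1) × ℂ) := S₀.image Subtype.val with hSdef
  have hS : ∀ q ∈ S, q.2 ∈ K ∧ R' < ‖q.2‖ := by
    intro q hq
    rw [hSdef, Finset.mem_image] at hq
    obtain ⟨q', -, rfl⟩ := hq
    exact q'.2
  let ι := Option {t : ℂ // t ∈ K ∧ R < ‖t‖ ∧ ∀ q ∈ S, evalEval t q.2 (P q.1) ≠ 0}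
  let W : ι → Submodule ℝ ((Fin m → ℝ) × ({p // p ∈ QF P S} → ℝ)) := fun i =>
    match i with
    | none => W0 A γ P Z₁ S
    | some t => Wt e A γ y P S t.1
  have hcommon : ∀ v, (∀ i, v ∈ W i) → v = 0 := by
    rintro ⟨a, μ⟩ hv
    have h0 : (a, μ) ∈ W0 A γ P Z₁ S := hv none
    have hEqn : ∀ q ∈ S, Eqn e P A γ y R q.1 a q.2 (mext μ q) := by
      intro q hq
      have hs' := (hS q hq).2
      have hfin : {t : ℂ | ∃ q ∈ S, evalEval t q.2 (P q.1) = 0}.Finite := by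
        have h1 : {t : ℂ | ∃ q ∈ S, evalEval t q.2 (P q.1) = 0} =
            ⋃ q ∈ S, {t : ℂ | evalEval t q.2 (P q.1) = 0} := by
          ext t
          simp
        rw [h1]
        apply Set.Finite.biUnion (Finset.finite_toSet S)
        intro q hq
        have h2 : {t : ℂ | evalEval t q.2 (P q.1) = 0} = ((rts (P q.1) q.2 : Finset ℂ) : Set ℂ) := by
          ext t
          rw [Finset.mem_coe, mem_rts c q.1 (hS q hq).2]
          rfl
        rw [h2]
        exact Finset.finite_toSet _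
      exact hExt n (P q.1) R R' (y q.1) (c.br q.1) K _ hK hfin (lam e A γ y a)
        (gg (prs γ q.1) a q.2) q.2 (mext μ q) hs'
        (fun j => lam_diffAt hQ c a j) (gg_diff hQ c q.1 a (lt_of_le_of_lt c.BR' hs'))
        (by
          intro t htK ht htE _
          have hts : ∀ q ∈ S, evalEval t q.2 (P q.1) ≠ 0 := by
            intro q hq h
            exact htE ⟨q, hq, h⟩
          exact hv (some ⟨t, htK, ht, hts⟩) q hq)
    have ha : a = 0 := by
      apply hS₀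
      intro q hq
      have hqS : q.1 ∈ S := Finset.mem_image_of_mem _ hq
      exact ⟨h0.1, mext μ q.1, hEqn q.1 hqS, h0.2 q.1 hqS⟩
    have hμ : μ = 0 := by
      ext ⟨⟨q, z⟩, hp⟩
      have hp' := hp
      unfold QF at hp'
      rw [Finset.mem_biUnion] at hp'
      obtain ⟨q', hq', h1⟩ := hp'
      rw [Finset.mem_image] at h1
      obtain ⟨z', hz', h2⟩ := h1
      have h3 : q' = q := congrArg Prod.fst h2
      have h4 : z' = z := congrArg Prod.snd h2
      subst h3 h4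
      have hsR := (hS q' hq').2
      obtain ⟨hqR, j, hj⟩ := branch_of_mem c q'.1 hsR ((mem_rts c q'.1 hsR z').1 hz')
      have h5 := (hKL n (P q'.1) R R' (y q'.1) (c.br q'.1) (lam e A γ y a)
        (gg (prs γ q'.1) a q'.2) q'.2 (mext μ q') hsR
        (fun j => lam_diffAt hQ c a j) (gg_diff hQ c q'.1 a (lt_of_le_of_lt c.BR' hsR))
        (hEqn q' hq') z' hz' j hj).1
      rw [ha, lam_zero] at h5
      unfold mext at h5
      rw [dif_pos hp] at h5
      exact h5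
    rw [ha, hμ]
    rfl
  obtain ⟨T, hT⟩ := hF _ ι W hcommon
  refine ⟨(T.biUnion (fun i => match i with
    | none => ∅
    | some t => {t.1})), S, ?_, hS, ?_, ?_⟩
  · intro t ht
    rw [Finset.mem_biUnion] at ht
    obtain ⟨i, -, hi⟩ := ht
    rcases i with _ | t'
    · simp at hi
    · simp only [Finset.mem_singleton] at hi
      subst hi
      exact ⟨t'.2.1, t'.2.2.1⟩
  · intro t ht
    rw [Finset.mem_biUnion] at ht
    obtain ⟨i, -, hi⟩ := ht
    rcases i with _ | t'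
    · simp at hi
    · simp only [Finset.mem_singleton] at hi
      subst hi
      exact t'.2.2.2
  · intro v h0 ht
    apply hT
    intro i hi
    rcases i with _ | t'
    · exact h0
    · apply ht
      rw [Finset.mem_biUnion]
      exact ⟨some t', hi, by simp⟩

end

end Pool.Agent.T9h40.GC
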