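import Pool.Agent.T9h40.GC.Asm3

/-!
# Assembly for arbitrary curves, part 4: the final duality
-/

open Polynomial Filter Topology Bornology

namespace Pool.Agent.T9h40.GC

open Pool.Agent.T9h40.GP (ww rg qq HypP rts Br Asy MM uu bb gg bc gc la E0 bb_add bb_smul gg_add
  gg_smul la_add la_smul RgSub LogInt WwSub QqDiff Moment MomS Parts KeyLoc KeyGlob B5 FinKer Ext
  BrEx MatInv contDiff_uu uu_closed rg_symm rg_const_right isOpen_ext im_contDiffOn sub_ne_of_lt)

section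
variable {n r m : ℕ} {e : Fin (r + 1) → ℕ} {P : Fin (r + 1) → Polynomial ℂ[X]}
  {A : Fin (r + 1) → Fin n → ℂ[X]} {V : Set (Pt r)} {Z₁ : Finset ℂ}
  {γ : Fin m → Pth r} {B R R' : ℝ} {y : Fin (r + 1) → Fin n → ℂ → ℂ}

theorem U_ne (c : Ctx e P A V Z₁ γ B R R' y) {Z : Finset ℂ} {S : Finset (Fin (r + 1) × ℂ)}
    (hZ : ∀ t ∈ Z, R < ‖t‖) (hS : ∀ q ∈ S, R' < ‖q.2‖) {p : Pt r} (hp : p ∈ NN V Z S)
    (l : Fin n) : p.2 0 - (A 0 l).eval p.1 ≠ 0 := by
  obtain ⟨h1, j, hj⟩ := NN_branch c hZ hS hp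
  rw [hj 0]
  exact sub_ne_zero.2 (c.asy.ne l j p.1 h1)

theorem tm_U_two (c : Ctx e P A V Z₁ γ B R R' y) {Z : Finset ℂ} {S : Finset (Fin (r + 1) × ℂ)}
    (hZ : ∀ t ∈ Z, R < ‖t‖) (hS : ∀ q ∈ S, R' < ‖q.2‖) {p : Pt r} (hp : p ∈ NN V Z S)
    (l : Fin n) : tm A (.U l : Fn n r) .two p = 0 := by
  have h1 := U_ne c hZ hS hp l
  simp [tm, Fn.val, h1]

theorem tm_X_two (t : ℂ) (p : Pt r) :
    tm A (.X t) (.two : Fn n r) p = - (if p.1 = t then Real.log 2 else 0) := by
  simp [tm, Fn.val, sub_eq_zero]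

theorem tm_U_X (c : Ctx e P A V Z₁ γ B R R' y) {Z : Finset ℂ} {S : Finset (Fin (r + 1) × ℂ)}
    (hZ : ∀ t ∈ Z, R < ‖t‖) (hS : ∀ q ∈ S, R' < ‖q.2‖) {p : Pt r} (hp : p ∈ NN V Z S)
    (l : Fin n) (t : ℂ) :
    tm A (.U l : Fn n r) (.X t) p =
      if p.1 = t then Real.log ‖p.2 0 - (A 0 l).eval p.1‖ else 0 := by
  have h1 := U_ne c hZ hS hp l
  simp [tm, Fn.val, h1, sub_eq_zero]

theorem tm_Y_X (b : Fin (r + 1)) (s t : ℂ) (p : Pt r) :
    tm A (.Y b s) (.X t : Fn n r) p = (if p.1 = t then Real.log ‖p.2 b - s‖ else 0) -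
      (if p.2 b = s then Real.log ‖p.1 - t‖ else 0) := by
  simp [tm, Fn.val, sub_eq_zero]

theorem final_dual (hRg : RgSub) (hWw : WwSub)
    (c : Ctx e P A V Z₁ γ B R R' y) {Z : Finset ℂ} {S : Finset (Fin (r + 1) × ℂ)}
    (hZ : ∀ t ∈ Z, R < ‖t‖)
    (hS : ∀ q ∈ S, R' < ‖q.2‖) (hZ₁ : ∀ t ∈ Z₁, ‖t‖ ≤ R)
    (hZS : ∀ t ∈ Z, ∀ q ∈ S, evalEval t q.2 (P q.1) ≠ 0)
    (hker : ∀ v : (Fin m → ℝ) × ({p // p ∈ QF P S} → ℝ), v ∈ W0 A γ P Z₁ S →
        (∀ t ∈ Z, v ∈ Wt e A γ y P S t) → v = 0) :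
    Submodule.span ℝ {v : (Fin m → ℝ) × (NN V Z S → ℝ) | ∃ f g : Fn n r,
        f.Adm (Z ∪ Z₁) S ∧ g.Adm (Z ∪ Z₁) S ∧
        (∀ p ∈ NN V Z S, ¬ (f.val A p = 0 ∧ g.val A p = 0)) ∧
        v = (fun k => rgv A f g (γ k), fun p => tm A f g p.1)} = ⊤ := by
  classical
  by_contra hcon
  obtain ⟨φ, hφ0, hφ⟩ := Submodule.exists_le_ker_of_lt_top _ (lt_top_iff_ne_top.2 hcon)
  apply hφ0
  have hNf := NN_finite c hZ hS
  have : Finite (NN V Z S) := hNf
  have : Fintype (NN V Z S) := Fintype.ofFinite _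
  set Nf : Finset (Pt r) := hNf.toFinset with hNfd
  have hmem : ∀ p, p ∈ Nf ↔ p ∈ NN V Z S := fun p => hNf.mem_toFinset
  set a : Fin m → ℝ := fun k => φ (Pi.single k 1, 0) with had
  set Λ : NN V Z S → ℝ := fun p => φ (0, Pi.single p 1) with hΛd
  set Λ' : Pt r → ℝ := fun p => if h : p ∈ NN V Z S then Λ ⟨p, h⟩ else 0 with hΛ'
  have hφeq : ∀ v w, φ (v, w) = ∑ k, a k * v k + ∑ p, Λ p * w p := by
    intro v w
    have h1 : (v, w) = ∑ k, v k • ((Pi.single k 1 : Fin m → ℝ), (0 : NN V Z S → ℝ)) +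
        ∑ p, w p • ((0 : Fin m → ℝ), (Pi.single p 1 : NN V Z S → ℝ)) := by
      ext i
      · simp [Prod.fst_sum, Finset.sum_apply, Pi.single_apply]
      · simp [Prod.snd_sum, Finset.sum_apply, Pi.single_apply]
    rw [h1, map_add, map_sum, map_sum]
    congr 1
    · apply Finset.sum_congr rfl
      intro k _
      rw [map_smul, smul_eq_mul, mul_comm]
    · apply Finset.sum_congr rfl
      intro k _
      rw [map_smul, smul_eq_mul, mul_comm]
  have hsum : ∀ G : Pt r → ℝ, ∑ p : NN V Z S, Λ p * G p.1 = ∑ p ∈ Nf, Λ' p * G p := by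
    intro G
    rw [Finset.sum_subtype Nf (p := fun p => p ∈ NN V Z S) hmem]
    apply Finset.sum_congr rfl
    intro p _
    rw [hΛ']
    simp only [dif_pos p.2]
  have hstar : ∀ f g : Fn n r, f.Adm (Z ∪ Z₁) S → g.Adm (Z ∪ Z₁) S →
      (∀ p ∈ NN V Z S, ¬ (f.val A p = 0 ∧ g.val A p = 0)) →
      ∑ k, a k * rgv A f g (γ k) + ∑ p ∈ Nf, Λ' p * tm A f g p = 0 := by
    intro f g hf hg hfg
    have h1 : ((fun k => rgv A f g (γ k), fun p => tm A f g p.1) :
        (Fin m → ℝ) × (NN V Z S → ℝ)) ∈ LinearMap.ker φ := by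
      apply hφ
      apply Submodule.subset_span
      exact ⟨f, g, hf, hg, hfg, rfl⟩
    rw [LinearMap.mem_ker, hφeq] at h1
    rw [← hsum (tm A f g)]
    exact h1
  have htwo : ∀ f : Fn n r, ∀ p ∈ NN V Z S, ¬ (f.val A p = 0 ∧ (.two : Fn n r).val A p = 0) := by
    intro f p _ h
    have : (2 : ℂ) = 0 := h.2
    norm_num at this
  have hUX : ∀ (l : Fin n) (t : ℂ), ∀ p ∈ NN V Z S,
      ¬ ((.U l : Fn n r).val A p = 0 ∧ (.X t : Fn n r).val A p = 0) := by
    intro l t p hp h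
    exact U_ne c hZ hS hp l h.1
  have hlog2 : Real.log 2 ≠ 0 := by
    have := Real.log_pos (by norm_num : (1:ℝ) < 2)
    linarith
  have hnotZ₁ : ∀ t ∈ Z₁, ∀ p ∈ Nf, p.1 ≠ t := by
    intro t ht p hp h
    have h1 := (NN_branch c hZ hS ((hmem p).1 hp)).1
    rw [h] at h1
    exact absurd (hZ₁ t ht) (not_le.2 h1)
  have hYX₀ : ∀ q ∈ S, ∀ t ∈ Z ∪ Z₁, ∀ p ∈ NN V Z S,
      ¬ ((.Y q.1 q.2 : Fn n r).val A p = 0 ∧ (.X t : Fn n r).val A p = 0) := by
    intro q hq t ht p hp h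
    have h1 : p.2 q.1 = q.2 := sub_eq_zero.1 h.1
    have h2 : p.1 = t := sub_eq_zero.1 h.2
    rcases Finset.mem_union.1 ht with h3 | h3
    · apply hZS t h3 q hq
      rw [← h1, ← h2]
      exact c.hyp.on p hp.1 q.1
    · exact hnotZ₁ t h3 p ((hmem p).2 hp) h2
  -- E0
  have hE0 : E0 (A 0) (prs γ 0) Z₁ a := by
    constructor
    · intro l
      have h1 := hstar (.U l) .two trivial trivial (htwo _)
      have h2 : ∑ p ∈ Nf, Λ' p * tm A (.U l : Fn n r) .two p = 0 := by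
        apply Finset.sum_eq_zero
        intro p hp
        rw [tm_U_two c hZ hS ((hmem p).1 hp), mul_zero]
      have h3 : ∀ k, rgv A (.U l : Fn n r) .two (γ k) =
          - Real.log 2 * ww (uu (A 0) l (prs γ 0 k)) := by
        intro k
        exact (rg_const_right (uu (A 0) l (prs γ 0 k)) 2).trans (by simp)
      rw [h2, add_zero] at h1
      simp only [h3] at h1
      have h4 : - Real.log 2 * ∑ k, a k * ww (uu (A 0) l (prs γ 0 k)) = 0 := by
        rw [Finset.mul_sum, ← h1]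
        apply Finset.sum_congr rfl
        intro k _
        ring
      rcases mul_eq_zero.1 h4 with h5 | h5
      · exact absurd (neg_eq_zero.1 h5) hlog2
      · exact h5
    · intro t ht
      have h1 := hstar (.X t) .two (Finset.mem_union_right _ ht) trivial (htwo _)
      have h2 : ∑ p ∈ Nf, Λ' p * tm A (.X t) (.two : Fn n r) p = 0 := by
        apply Finset.sum_eq_zero
        intro p hp
        rw [tm_X_two, if_neg (hnotZ₁ t ht p hp)]
        simp
      have h3 : ∀ k, rgv A (.X t) (.two : Fn n r) (γ k) =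
          - Real.log 2 * ww (fun θ => (γ k).x θ - t) := by
        intro k
        exact (rg_const_right (fun θ => (γ k).x θ - t) 2).trans (by simp)
      rw [h2, add_zero] at h1
      simp only [h3] at h1
      have h4 : - Real.log 2 * ∑ k, a k * ww (fun θ => (γ k).x θ - t) = 0 := by
        rw [Finset.mul_sum, ← h1]
        apply Finset.sum_congr rfl
        intro k _
        ring
      rcases mul_eq_zero.1 h4 with h5 | h5
      · exact absurd (neg_eq_zero.1 h5) hlog2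
      · exact h5
  -- the coefficients over `t ∈ Z`
  have hxlt : ∀ t ∈ Z, ∀ k, ∀ θ ∈ Set.Icc (0:ℝ) 1, ‖(γ k).x θ‖ < ‖t‖ := by
    intro t ht k θ hθ
    exact lt_of_le_of_lt ((c.bx k θ hθ).trans c.BR) (hZ t ht)
  have hla : ∀ t ∈ Z, ∀ j, Λ' (t, fun i => y i j t) = lam e A γ y a j t := by
    intro t ht
    have hsum0 : ∑ j, Λ' (t, fun i => y i j t) = 0 := by
      have h1 := hstar (.X t) .two (Finset.mem_union_left _ ht) trivial (htwo _)
      have h3 : ∀ k, rgv A (.X t) (.two : Fn n r) (γ k) = 0 := by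
        intro k
        have h4 := rg_const_right (fun θ => (γ k).x θ - t) 2
        rw [(hWw (γ k).x t (γ k).hx (γ k).cx (hxlt t ht k)).1, mul_zero] at h4
        exact h4
      simp only [h3, mul_zero, Finset.sum_const_zero, zero_add, tm_X_two] at h1
      have h5 : ∑ p ∈ Nf, (if p.1 = t then Λ' p * Real.log 2 else 0) = 0 := by
        have h6 : ∑ p ∈ Nf, (if p.1 = t then Λ' p * Real.log 2 else 0) =
            - ∑ p ∈ Nf, Λ' p * -(if p.1 = t then Real.log 2 else 0) := by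
          rw [← Finset.sum_neg_distrib]
          apply Finset.sum_congr rfl
          intro p _
          split_ifs <;> simp
        rw [h6, h1, neg_zero]
      rw [sumX c ht (hZ t ht) Nf hmem (fun p => Λ' p * Real.log 2), ← Finset.sum_mul] at h5
      rcases mul_eq_zero.1 h5 with h6 | h6
      · exact h6
      · exact absurd h6 hlog2
    have hM : (MM (e 0) (A 0) (y 0) t).mulVec (fun j => Λ' (t, fun i => y i j t)) =
        fun l => bb (A 0) (prs γ 0) a l t := by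
      ext l
      have h1 := hstar (.U l) (.X t) trivial (Finset.mem_union_left _ ht) (hUX l t)
      have h2 : ∑ p ∈ Nf, Λ' p * tm A (.U l : Fn n r) (.X t) p =
          ∑ j, Λ' (t, fun i => y i j t) * Real.log ‖y 0 j t - (A 0 l).eval t‖ := by
        rw [← sumX c ht (hZ t ht) Nf hmem
          (fun p => Λ' p * Real.log ‖p.2 0 - (A 0 l).eval p.1‖)]
        apply Finset.sum_congr rfl
        intro p hp
        rw [tm_U_X c hZ hS ((hmem p).1 hp)]
        split_ifs <;> simp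
      have h3 : ∑ k, a k * rgv A (.U l : Fn n r) (.X t) (γ k) =
          - bb (A 0) (prs γ 0) a l t := by
        have h4 : ∀ k, rgv A (.U l : Fn n r) (.X t) (γ k) =
            - Real.log ‖t‖ * ww (uu (A 0) l (prs γ 0 k)) -
            (qq (fun θ => deriv (uu (A 0) l (prs γ 0 k)) θ / uu (A 0) l (prs γ 0 k) θ)
              (γ k).x t⁻¹).im := by
          intro k
          exact hRg (uu (A 0) l (prs γ 0 k)) (γ k).x t (contDiff_uu (A 0) l (prs γ 0 k))
            (fun θ _ => uu_ne c l k θ) (uu_closed (A 0) l (prs γ 0 k)) (γ k).hx (γ k).cx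
            (hxlt t ht k)
        have h5 : ∑ k, a k * (Real.log ‖t‖ * ww (uu (A 0) l (prs γ 0 k))) = 0 := by
          have : ∑ k, a k * (Real.log ‖t‖ * ww (uu (A 0) l (prs γ 0 k))) =
              Real.log ‖t‖ * ∑ k, a k * ww (uu (A 0) l (prs γ 0 k)) := by
            rw [Finset.mul_sum]
            apply Finset.sum_congr rfl
            intro k _
            ring
          rw [this, hE0.1 l, mul_zero]
        have h6 : bb (A 0) (prs γ 0) a l t = ∑ k, a k *
            (qq (fun θ => deriv (uu (A 0) l (prs γ 0 k)) θ / uu (A 0) l (prs γ 0 k) θ)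
              (γ k).x t⁻¹).im := by
          unfold bb bc
          rw [Complex.im_sum]
          apply Finset.sum_congr rfl
          intro k _
          simp [prs, Pth.pr]
        rw [h6]
        simp only [h4, mul_sub, Finset.sum_sub_distrib]
        have h7 : ∑ k, a k * (- Real.log ‖t‖ * ww (uu (A 0) l (prs γ 0 k))) = 0 := by
          rw [← neg_eq_zero, ← Finset.sum_neg_distrib, ← h5]
          apply Finset.sum_congr rfl
          intro k _
          ring
        rw [h7, zero_sub]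
      rw [h2, h3] at h1
      simp only [Matrix.mulVec, dotProduct, MM]
      have h8 : ∑ j, (Real.log ‖y 0 j t - (A 0 l).eval t‖ - e 0 * Real.log ‖t‖) *
            Λ' (t, fun i => y i j t) =
          ∑ j, Λ' (t, fun i => y i j t) * Real.log ‖y 0 j t - (A 0 l).eval t‖ -
            e 0 * Real.log ‖t‖ * ∑ j, Λ' (t, fun i => y i j t) := by
        rw [Finset.mul_sum, ← Finset.sum_sub_distrib]
        apply Finset.sum_congr rfl
        intro j _
        ring
      rw [h8, hsum0]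
      linarith
    have h9 : (fun j => Λ' (t, fun i => y i j t)) =
        (MM (e 0) (A 0) (y 0) t)⁻¹.mulVec (fun l => bb (A 0) (prs γ 0) a l t) := by
      rw [← hM, Matrix.mulVec_mulVec, Matrix.nonsing_inv_mul _ (c.det t (hZ t ht)),
        Matrix.one_mulVec]
    intro j
    exact congrFun h9 j
  -- the vector (a, μ)
  set μ : {p // p ∈ QF P S} → ℝ := fun p => mu Nf Λ' p.1.1.1 p.1.1.2 p.1.2 with hμd
  have hmext : ∀ q ∈ S, ∀ z ∈ rts (P q.1) q.2, mext μ q z = mu Nf Λ' q.1 q.2 z := by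
    intro q hq z hz
    unfold mext
    have : (q, z) ∈ QF P S := by
      unfold QF
      rw [Finset.mem_biUnion]
      exact ⟨q, hq, Finset.mem_image_of_mem _ hz⟩
    rw [dif_pos this]
  have hYX : ∀ q ∈ S, ∀ t, ∑ p ∈ Nf, Λ' p * tm A (.Y q.1 q.2) (.X t : Fn n r) p =
      ∑ p ∈ Nf, (if p.1 = t then Λ' p * Real.log ‖p.2 q.1 - q.2‖ else 0) -
        ∑ z ∈ rts (P q.1) q.2, mext μ q z * Real.log ‖z - t‖ := by
    intro q hq t
    have h1 : ∑ z ∈ rts (P q.1) q.2, mext μ q z * Real.log ‖z - t‖ =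
        ∑ p ∈ Nf, (if p.2 q.1 = q.2 then Λ' p * Real.log ‖p.1 - t‖ else 0) := by
      rw [sumY c (hS q hq) Nf hmem Λ' (fun z => Real.log ‖z - t‖)]
      apply Finset.sum_congr rfl
      intro z hz
      rw [hmext q hq z hz]
    rw [h1, ← Finset.sum_sub_distrib]
    apply Finset.sum_congr rfl
    intro p _
    rw [tm_Y_X]
    split_ifs <;> ring
  have hv : ((a, μ) : (Fin m → ℝ) × ({p // p ∈ QF P S} → ℝ)) = 0 := by
    apply hker
    · refine ⟨hE0, ?_⟩
      intro q hq t ht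
      have h1 := hstar (.Y q.1 q.2) (.X t) hq (Finset.mem_union_right _ ht)
        (hYX₀ q hq t (Finset.mem_union_right _ ht))
      rw [hYX q hq t] at h1
      have h2 : ∑ p ∈ Nf, (if p.1 = t then Λ' p * Real.log ‖p.2 q.1 - q.2‖ else 0) = 0 := by
        apply Finset.sum_eq_zero
        intro p hp
        rw [if_neg (hnotZ₁ t ht p hp)]
      rw [h2] at h1
      have h3 : ∀ k, rgv A (.Y q.1 q.2) (.X t : Fn n r) (γ k) =
          rg (fun θ => (γ k).w q.1 θ - q.2) (fun θ => (γ k).x θ - t) := fun k => rfl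
      simp only [h3] at h1
      linarith
    · intro t ht q hq
      have h1 := hstar (.Y q.1 q.2) (.X t) hq (Finset.mem_union_left _ ht)
        (hYX₀ q hq t (Finset.mem_union_left _ ht))
      rw [hYX q hq t, sumX c ht (hZ t ht) Nf hmem
        (fun p => Λ' p * Real.log ‖p.2 q.1 - q.2‖)] at h1
      have hsB : B < ‖q.2‖ := lt_of_le_of_lt c.BR' (hS q hq)
      have h3 : ∑ k, a k * rgv A (.Y q.1 q.2) (.X t : Fn n r) (γ k) =
          - gg (prs γ q.1) a q.2 t := by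
        have h4 : ∀ k, a k * rgv A (.Y q.1 q.2) (.X t : Fn n r) (γ k) =
            - (a k * (qq (fun θ => deriv ((γ k).w q.1) θ / ((γ k).w q.1 θ - q.2))
              (γ k).x t⁻¹).im) := by
          intro k
          have h5 := hRg (fun θ => (γ k).w q.1 θ - q.2) (γ k).x t
            (((γ k).hw q.1).sub contDiff_const)
            (sub_ne_of_lt (c.bw k q.1) hsB) (by rw [(γ k).cw]) (γ k).hx (γ k).cx (hxlt t ht k)
          have h6 := (hWw ((γ k).w q.1) q.2 ((γ k).hw q.1) ((γ k).cw q.1)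
            (fun θ hθ => lt_of_le_of_lt (c.bw k q.1 θ hθ) hsB)).1
          rw [h6, mul_zero, zero_sub] at h5
          have h7 : rgv A (.Y q.1 q.2) (.X t : Fn n r) (γ k) =
            rg (fun θ => (γ k).w q.1 θ - q.2) (fun θ => (γ k).x θ - t) := rfl
          rw [h7, h5]
          simp
        simp only [h4, Finset.sum_neg_distrib]
        unfold gg gc
        rw [Complex.im_sum]
        congr 1
        apply Finset.sum_congr rfl
        intro k _
        simp [prs, Pth.pr]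
      rw [h3] at h1
      have h8 : ∑ j, lam e A γ y a j t * Real.log ‖y q.1 j t - q.2‖ =
          ∑ j, Λ' (t, fun i => y i j t) * Real.log ‖y q.1 j t - q.2‖ := by
        apply Finset.sum_congr rfl
        intro j _
        rw [hla t ht j]
      change - gg (prs γ q.1) a q.2 t + ∑ j, lam e A γ y a j t * Real.log ‖y q.1 j t - q.2‖ =
        ∑ z ∈ rts (P q.1) q.2, mext μ q z * Real.log ‖z - t‖
      rw [h8]
      linarith
  have ha0 : a = 0 := congrArg Prod.fst hv
  have hμ0 : μ = 0 := congrArg Prod.snd hv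
  have hΛ0 : ∀ p : NN V Z S, Λ p = 0 := by
    intro p
    have h1 : Λ p = Λ' p.1 := by
      rw [hΛ']
      simp only [dif_pos p.2]
    rw [h1]
    rcases p.2.2 with h | ⟨i, h⟩
    · obtain ⟨h2, j, hj⟩ := NN_branch c hZ hS p.2
      have h3 : p.1 = (p.1.1, fun i => y i j p.1.1) := by
        ext i
        · rfl
        · exact hj i
      rw [h3, hla _ h j, ha0]
      exact lam_zero e A γ y j _
    · have hz : p.1.1 ∈ rts (P i) (p.1.2 i) :=
        (mem_rts c i (hS _ h) _).2 (c.hyp.on p.1 p.2.1 i)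
      have h2 : ((i, p.1.2 i), p.1.1) ∈ QF P S := by
        unfold QF
        rw [Finset.mem_biUnion]
        exact ⟨(i, p.1.2 i), h, Finset.mem_image_of_mem _ hz⟩
      have h3 := congrFun hμ0 ⟨_, h2⟩
      rw [← mu_eq c hZ hS Nf hmem Λ' ((hmem p.1).2 p.2) i]
      exact h3
  apply LinearMap.ext
  rintro ⟨v, w⟩
  rw [hφeq, ha0]
  simp [hΛ0]

end

/-- Existence of the context. -/
theorem ctx_ex (hBr : BrEx) (hM : MatInv) (hB5 : B5) (hFib : Fib) {n r m : ℕ}
    {e : Fin (r + 1) → ℕ} {P : Fin (r + 1) → Polynomial ℂ[X]}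
    {A : Fin (r + 1) → Fin n → ℂ[X]} {V : Set (Pt r)} (hyp : HypC n r e P A V)
    {Z₁ : Finset ℂ} {γ : Fin m → Pth r}
    (hγ : ∀ k, OnU V A Z₁ (γ k)) (R₀ : ℝ) :
    ∃ (B R R' : ℝ) (y : Fin (r + 1) → Fin n → ℂ → ℂ), R₀ ≤ R ∧ (∀ t ∈ Z₁, ‖t‖ ≤ R) ∧
      Ctx e P A V Z₁ γ B R R' y := by
  classical
  -- bound for the paths
  have hb : ∀ k, ∃ b : ℝ, (∀ θ ∈ Set.Icc (0:ℝ) 1, ‖(γ k).x θ‖ ≤ b) ∧
      ∀ i, ∀ θ ∈ Set.Icc (0:ℝ) 1, ‖(γ k).w i θ‖ ≤ b := by
    intro k
    obtain ⟨b₁, h₁⟩ := isCompact_Icc.exists_bound_of_continuousOn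
      (s := Set.Icc (0:ℝ) 1) (γ k).hx.continuous.continuousOn
    have h₂ : ∀ i, ∃ b : ℝ, ∀ θ ∈ Set.Icc (0:ℝ) 1, ‖(γ k).w i θ‖ ≤ b := fun i =>
      isCompact_Icc.exists_bound_of_continuousOn
        (s := Set.Icc (0:ℝ) 1) ((γ k).hw i).continuous.continuousOn
    choose b₂ h₂ using h₂
    refine ⟨|b₁| + ∑ i, |b₂ i|, ?_, ?_⟩
    · intro θ hθ
      have h3 := h₁ θ hθ
      have h4 := le_abs_self b₁
      have h5 : 0 ≤ ∑ i, |b₂ i| := Finset.sum_nonneg (fun k _ => abs_nonneg _)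
      linarith
    · intro i θ hθ
      have h3 := h₂ i θ hθ
      have h4 := le_abs_self (b₂ i)
      have h5 : |b₂ i| ≤ ∑ i, |b₂ i| :=
        Finset.single_le_sum (f := fun i => |b₂ i|) (fun k _ => abs_nonneg _) (Finset.mem_univ i)
      have h6 := abs_nonneg b₁
      linarith
  choose b hb using hb
  set B : ℝ := 1 + ∑ k, |b k| with hBd
  have hBpos : 0 < B := by
    have : 0 ≤ ∑ k, |b k| := Finset.sum_nonneg (fun k _ => abs_nonneg _)
    linarith
  have hbB : ∀ k, b k ≤ B := by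
    intro k
    have h1 : |b k| ≤ ∑ k, |b k| :=
      Finset.single_le_sum (f := fun k => |b k|) (fun k _ => abs_nonneg _) (Finset.mem_univ k)
    have h2 := le_abs_self (b k)
    linarith
  set C₁ : ℝ := ∑ t ∈ Z₁, ‖t‖ with hC₁
  have hC : ∀ t ∈ Z₁, ‖t‖ ≤ C₁ := fun t ht =>
    Finset.single_le_sum (f := fun t => ‖t‖) (fun t _ => norm_nonneg t) ht
  -- branches for each coordinate
  have hbr0 : ∀ i, ∃ (R R' : ℝ) (y : Fin n → ℂ → ℂ), max (max B R₀) C₁ ≤ R ∧
      max (max B R₀) C₁ ≤ R' ∧ Br n (P i) R R' y ∧ Asy n (e i) (A i) R y :=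
    fun i => hBr n (e i) (P i) (A i) (hyp.hyp i) (max (max B R₀) C₁)
  choose Ri Ri' y hRi hRi' hbr hasy using hbr0
  -- common radius
  set R₀' : ℝ := ∑ i, |Ri i| with hR₀'
  have hRi0 : ∀ i, Ri i ≤ R₀' := by
    intro i
    have h1 : |Ri i| ≤ ∑ i, |Ri i| :=
      Finset.single_le_sum (f := fun i => |Ri i|) (fun k _ => abs_nonneg _) (Finset.mem_univ i)
    have h2 := le_abs_self (Ri i)
    linarith
  have hR₀'pos : 0 < R₀' := lt_of_lt_of_le (hbr 0).Rpos (hRi0 0)
  obtain ⟨R₁, hR₁, hfib, hfib'⟩ := hFib n r e P A V hyp R₀' y hR₀'pos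
    (fun i t ht s => (hbr i).fac t (lt_of_le_of_lt (hRi0 i) ht) s)
    (fun i =>
      { ne := fun l j t ht => (hasy i).ne l j t (lt_of_le_of_lt (hRi0 i) ht)
        diag := (hasy i).diag
        off := (hasy i).off })
  have hR₁0 : ∀ i, Ri i ≤ R₁ := fun i => (hRi0 i).trans hR₁
  have hR₁pos : 0 < R₁ := lt_of_lt_of_le hR₀'pos hR₁
  -- the matrix
  have hMd : ∀ l j, ContDiffOn ℝ 1 (fun t => MM (e 0) (A 0) (y 0) t l j) {t | R₁ < ‖t‖} := by
    intro l j
    unfold MM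
    have hmono1 : {t : ℂ | R₁ < ‖t‖} ⊆ {t : ℂ | Ri 0 < ‖t‖} := fun t ht =>
      lt_of_le_of_lt (hR₁0 0) ht
    apply ContDiffOn.sub
    · apply ContDiffOn.log
      · have h3 : DifferentiableOn ℂ (fun t => y 0 j t - (A 0 l).eval t) {t | R₁ < ‖t‖} :=
          (((hbr 0).diff j).mono hmono1).sub (A 0 l).differentiable.differentiableOn
        have h4 : ContDiffOn ℝ 1 (fun t => y 0 j t - (A 0 l).eval t) {t | R₁ < ‖t‖} :=
          (h3.contDiffOn (isOpen_ext R₁)).restrict_scalars ℝ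
        exact h4.norm ℝ (fun t ht => sub_ne_zero.2 ((hasy 0).ne l j t (hmono1 ht)))
      · intro t ht
        exact norm_ne_zero_iff.2 (sub_ne_zero.2 ((hasy 0).ne l j t (hmono1 ht)))
    · apply ContDiffOn.mul contDiffOn_const
      have hne : ∀ t ∈ {t : ℂ | R₁ < ‖t‖}, t ≠ 0 := by
        intro t ht h
        have ht' : R₁ < ‖t‖ := ht
        rw [h, norm_zero] at ht'
        linarith
      apply ContDiffOn.log
      · exact contDiffOn_id.norm ℝ hne
      · intro t ht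
        exact norm_ne_zero_iff.2 (hne t ht)
  obtain ⟨R₂, h3, hdet, hinv⟩ := hM n (MM (e 0) (A 0) (y 0)) R₁ hR₁pos hMd
    (fun l => (hasy 0).diag l) (fun l i hli => (hasy 0).off l i hli)
  have hB5' : ∀ i, ∃ R' : ℝ, max R₂ B ≤ R' ∧ 0 < R' ∧
      ∀ x s, R' < ‖s‖ → evalEval x s (P i) = 0 → max R₂ B < ‖x‖ :=
    fun i => hB5 (P i) (hyp.hyp i).monic (max R₂ B)
  choose T hT hTpos hfar using hB5'
  set R₂' : ℝ := ∑ i, |T i| with hR₂'
  have hT0 : ∀ i, T i ≤ R₂' := by
    intro i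
    have h1 : |T i| ≤ ∑ i, |T i| :=
      Finset.single_le_sum (f := fun i => |T i|) (fun k _ => abs_nonneg _) (Finset.mem_univ i)
    have h2 := le_abs_self (T i)
    linarith
  have hB1 : B ≤ R₁ := ((((le_max_left _ _).trans (le_max_left _ _)).trans (hRi 0))).trans (hR₁0 0)
  refine ⟨B, R₂, R₂', y, ?_, ?_, ?_⟩
  · exact ((((le_max_right _ _).trans (le_max_left _ _)).trans (hRi 0)).trans (hR₁0 0)).trans h3
  · intro t ht
    exact ((((hC t ht).trans (le_max_right _ _)).trans (hRi 0)).trans (hR₁0 0)).trans h3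
  · have hmono : ∀ i, {t : ℂ | R₂ < ‖t‖} ⊆ {t : ℂ | Ri i < ‖t‖} := fun i t ht =>
      lt_of_le_of_lt ((hR₁0 i).trans h3) ht
    have hmono1 : ∀ t : ℂ, R₂ < ‖t‖ → R₁ < ‖t‖ := fun t ht => lt_of_le_of_lt h3 ht
    refine
      { hyp := hyp
        onU := hγ
        Bpos := hBpos
        bx := fun k θ hθ => ((hb k).1 θ hθ).trans (hbB k)
        bw := fun k i θ hθ => ((hb k).2 i θ hθ).trans (hbB k)
        BR := hB1.trans h3
        BR' := (((le_max_right _ _).trans (hT 0)).trans (hT0 0))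
        br := ?_
        asy :=
          { ne := fun l i t ht => (hasy 0).ne l i t (hmono 0 ht)
            diag := (hasy 0).diag
            off := (hasy 0).off }
        fib := fun p hp hpR => hfib p hp (hmono1 _ hpR)
        fib' := fun t ht j => hfib' t (hmono1 _ ht) j
        det := hdet
        inv := hinv }
    intro i
    refine
      { Rpos := lt_of_lt_of_le hR₁pos h3
        Rpos' := lt_of_lt_of_le (hTpos i) (hT0 i)
        diff := fun j => ((hbr i).diff j).mono (hmono i)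
        fac := fun t ht => (hbr i).fac t (hmono i ht)
        inj := fun t ht => (hbr i).inj t (hmono i ht)
        der := fun j t ht => (hbr i).der j t (hmono i ht)
        inf := (hbr i).inf
        far := ?_ }
    intro x s hs hx
    exact lt_of_le_of_lt (le_max_left _ _) (hfar i x s (lt_of_le_of_lt (hT0 i) hs) hx)

theorem final_of (hRg : RgSub) (hLI : LogInt) (hWw : WwSub) (hQ : QqDiff) (hMo : Moment)
    (hMS : MomS) (hPa : Parts) (hKL : KeyLoc) (hKG : KeyGlob) (hB5 : B5) (hF : FinKer)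
    (hExt : Ext) (hBr : BrEx) (hM : MatInv) (hFib : Fib) : Final := by
  intro n r e P A V hyp K hK Z₁ m γ hγ hind R₀
  obtain ⟨B, R, R', y, hR₀, hZ₁, c⟩ := ctx_ex hBr hM hB5 hFib hyp hγ R₀
  obtain ⟨Z, S, hZ, hS, hZS, hker⟩ := choose_ZS hRg hLI hWw hQ hMo hMS hPa hKL hKG hB5 hF hExt c
    hind hK
  have hZ' : ∀ t ∈ Z, R < ‖t‖ := fun t ht => (hZ t ht).2
  have hS' : ∀ q ∈ S, R' < ‖q.2‖ := fun q hq => (hS q hq).2
  refine ⟨Z, S, fun t ht => (hZ t ht).1, fun q hq => (hS q hq).1, ?_, ?_, hZS,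
    NN_finite c hZ' hS', final_dual hRg hWw c hZ' hS' hZ₁ hZS hker⟩
  · intro p hp
    obtain ⟨h1, j, hj⟩ := NN_branch c hZ' hS' hp
    refine ⟨lt_of_le_of_lt hR₀ h1, ?_, ?_⟩
    · intro i
      rw [hj i]
      exact der_y (c.br i) h1 j
    · intro l
      exact sub_ne_zero.1 (U_ne c hZ' hS' hp l)
  · intro q hq x hx
    exact der_x (c.br q.1) (hS' q hq) hx

end Pool.Agent.T9h40.GC
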